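import Pool.Agent.W668.Uni.Asm
import Pool.Agent.W758.Uni.KhatMain
import Pool.Agent.W589.UniSol

/-!
# Landsberg unicorn: everything except `P_lift`
-/

set_option autoImplicit false

namespace Pool.Agent.W668.Uni

theorem perP (hl : P_lift) : P_per :=
  asm Pool.Agent.W758.Uni.khat hl Pool.Agent.W589.UniSol.sol

end Pool.Agent.W668.Uni
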