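import Pool.Agent.W668.Uni.LiftAbs
import Pool.Agent.W758.Uni.DCalc
import Pool.Agent.W803.Uni.Isom

/-!
# Landsberg unicorn, UNI-LIFT: lifting to `E 3`
-/

set_option autoImplicit false
set_option maxSynthPendingDepth 3

open Set MeasureTheory Filter
open scoped ContDiff Topology

namespace Pool.Agent.W668.Uni.Lift

open Pool.Agent.W758.Uni Pool.Agent.W668.Uni.LiftAbs

noncomputable section

/-- a curve characterisation of `Rel` -/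
theorem rel_of_curve {f f₁ : X} (h : ∀ a : ℝ, 0 < a → HasDerivAt (fun a => τX a f) (-τX a f₁) a) :
    Rel f f₁ := by
  intro a ha x h0 h1
  have hc : Continuous (fun s : ℝ => evX f₁ (Real.exp (-s) * x)) :=
    (continuous_evX f₁).comp (by fun_prop)
  have hc0 : Continuous (fun s : ℝ => evX f (Real.exp (-s) * x)) :=
    (continuous_evX f).comp (by fun_prop)
  have hd : ∀ s ∈ Ioo (0 : ℝ) a, HasDerivAt (fun s => evX f (Real.exp (-s) * x))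
      (-(evX f₁ (Real.exp (-s) * x))) s := by
    intro s hs
    have h2 : HasDerivAt (fun a => evLX x (τX a f)) (evLX x (-τX s f₁)) s :=
      (evLX x).hasFDerivAt.comp_hasDerivAt s (h s hs.1)
    have e1 : evLX x (-τX s f₁) = -(evX f₁ (Real.exp (-s) * x)) := by
      rw [map_neg, evLX_apply, evX_τX' s hs.1.le f₁ x h0 h1]
    rw [e1] at h2
    refine h2.congr_of_eventuallyEq ?_
    filter_upwards [isOpen_Ioi.mem_nhds (show s ∈ Ioi (0 : ℝ) from hs.1)] with b hb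
    rw [evLX_apply, evX_τX' b (le_of_lt hb) f x h0 h1]
  have hi := intervalIntegral.integral_eq_sub_of_hasDerivAt_of_le ha hc0.continuousOn hd
    (hc.neg.intervalIntegrable _ _)
  rw [intervalIntegral.integral_neg] at hi
  simp only [neg_zero, Real.exp_zero, one_mul] at hi
  linarith

variable {EM : EMaps} {e₀ M : ℝ} {N : ℝ × E 2 → X} {A : ℝ × E 2 → (X →L[ℝ] X)}

/-- the components of the lifted map -/
def n0 (EM : EMaps) (N : ℝ × E 2 → X) (p : ℝ × E 3) : X := N (p.1, EM.drop 2 p.2)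

def n1 (EM : EMaps) (A : ℝ × E 2 → (X →L[ℝ] X)) (p : ℝ × E 3) : X :=
  A (p.1, EM.drop 2 p.2) (prL 3 1 p.2)

def n2 (EM : EMaps) (A : ℝ × E 2 → (X →L[ℝ] X)) (p : ℝ × E 3) : X :=
  A (p.1, EM.drop 2 p.2) (prL 3 2 p.2)
    + fderiv ℝ A (p.1, EM.drop 2 p.2) (0, EM.sh 2 p.2) (prL 3 1 p.2)

def n3 (EM : EMaps) (A : ℝ × E 2 → (X →L[ℝ] X)) (p : ℝ × E 3) : X :=
  A (p.1, EM.drop 2 p.2) (prL 3 3 p.2)
    + (3 : ℝ) • fderiv ℝ A (p.1, EM.drop 2 p.2) (0, EM.sh 2 p.2) (prL 3 2 p.2)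
    + fderiv ℝ (fderiv ℝ A) (p.1, EM.drop 2 p.2) (0, EM.sh 2 p.2) (0, EM.sh 2 p.2)
        (prL 3 1 p.2)

/-- the comp map -/
def drp (EM : EMaps) : ℝ × E 3 →L[ℝ] ℝ × E 2 := (ContinuousLinearMap.id ℝ ℝ).prodMap (EM.drop 2)

def shp (EM : EMaps) : ℝ × E 3 →L[ℝ] ℝ × E 2 :=
  (0 : ℝ × E 3 →L[ℝ] ℝ).prod ((EM.sh 2).comp (ContinuousLinearMap.snd ℝ ℝ (E 3)))

theorem maps_drp : MapsTo (drp EM) (domE 3 e₀ M) (domE 2 e₀ M) := fun _ hp => drop_dom EM hp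

theorem smooth_n1 (H : Hyp (domE 2 e₀ M) N A (prL 2 0)) (i : Fin 4) :
    ContDiffOn ℝ ∞ (fun p : ℝ × E 3 => A (p.1, EM.drop 2 p.2) (prL 3 i p.2)) (domE 3 e₀ M) := by
  have h1 : ContDiffOn ℝ ∞ (fun p : ℝ × E 3 => A (drp EM p)) (domE 3 e₀ M) :=
    H.smA.comp (drp EM).contDiff.contDiffOn maps_drp
  exact h1.clm_apply (((prL 3 i).comp (ContinuousLinearMap.snd ℝ ℝ (E 3))).contDiff.contDiffOn)

theorem smooth_n2 (H : Hyp (domE 2 e₀ M) N A (prL 2 0)) (i : Fin 4) :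
    ContDiffOn ℝ ∞ (fun p : ℝ × E 3 => fderiv ℝ A (p.1, EM.drop 2 p.2) (0, EM.sh 2 p.2)
      (prL 3 i p.2)) (domE 3 e₀ M) := by
  have h1 : ContDiffOn ℝ ∞ (fun p : ℝ × E 3 => fderiv ℝ A (drp EM p)) (domE 3 e₀ M) :=
    H.smA'.comp (drp EM).contDiff.contDiffOn maps_drp
  have h2 : ContDiffOn ℝ ∞ (fun p : ℝ × E 3 => fderiv ℝ A (drp EM p) (shp EM p)) (domE 3 e₀ M) :=
    h1.clm_apply (shp EM).contDiff.contDiffOn
  exact h2.clm_apply (((prL 3 i).comp (ContinuousLinearMap.snd ℝ ℝ (E 3))).contDiff.contDiffOn)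

theorem smooth_n3 (H : Hyp (domE 2 e₀ M) N A (prL 2 0)) (i : Fin 4) :
    ContDiffOn ℝ ∞ (fun p : ℝ × E 3 => fderiv ℝ (fderiv ℝ A) (p.1, EM.drop 2 p.2)
      (0, EM.sh 2 p.2) (0, EM.sh 2 p.2) (prL 3 i p.2)) (domE 3 e₀ M) := by
  have h0 : ContDiffOn ℝ ∞ (fderiv ℝ (fderiv ℝ A)) (domE 2 e₀ M) :=
    H.smA'.fderiv_of_isOpen H.opn (by exact_mod_cast le_top)
  have h1 : ContDiffOn ℝ ∞ (fun p : ℝ × E 3 => fderiv ℝ (fderiv ℝ A) (drp EM p)) (domE 3 e₀ M) :=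
    h0.comp (drp EM).contDiff.contDiffOn maps_drp
  have h2 : ContDiffOn ℝ ∞ (fun p : ℝ × E 3 => fderiv ℝ (fderiv ℝ A) (drp EM p) (shp EM p))
      (domE 3 e₀ M) := h1.clm_apply (shp EM).contDiff.contDiffOn
  have h3 : ContDiffOn ℝ ∞ (fun p : ℝ × E 3 => fderiv ℝ (fderiv ℝ A) (drp EM p) (shp EM p)
      (shp EM p)) (domE 3 e₀ M) := h2.clm_apply (shp EM).contDiff.contDiffOn
  exact h3.clm_apply (((prL 3 i).comp (ContinuousLinearMap.snd ℝ ℝ (E 3))).contDiff.contDiffOn)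

/-- the curves attached to `u ∈ E 3` -/
theorem curve_v (EM : EMaps) (u : E 3) (a : ℝ) (ha : 0 < a) :
    HasDerivAt (fun a => EM.τE 2 a (EM.drop 2 u)) (-EM.τE 2 a (EM.sh 2 u)) a := curve_E EM u a ha

theorem rel_comp (u : E 3) (i : Fin 3) : Rel ((u : Fin 4 → X) i.castSucc) ((u : Fin 4 → X) i.succ) :=
  fun a ha x h0 h1 => u.2 i a ha x h0 h1

theorem cont_p (EM : EMaps) (u : E 2) : Continuous (fun a => EM.τE 2 a u) := by
  refine Continuous.subtype_mk (f := fun a => (EM.τE 2 a u : Fin 3 → X)) ?_ _ |>.congr fun a => rfl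
  refine continuous_pi fun i => ?_
  have e : (fun a => (EM.τE 2 a u : Fin 3 → X) i) = fun a => τX a ((u : Fin 3 → X) i) := by
    funext a; exact EM.τE_ev 2 a u i
  rw [e]
  exact continuous_τX _

theorem lift_main (EM : EMaps) (H : Hyp (domE 2 e₀ M) N A (prL 2 0))
    (hN : ∀ p ∈ domE 2 e₀ M, ∀ a : ℝ, 0 ≤ a → N (p.1, EM.τE 2 a p.2) = τX a (N p))
    (hA : ∀ p ∈ domE 2 e₀ M, ∀ a : ℝ, 0 ≤ a → ∀ g : X,
      A (p.1, EM.τE 2 a p.2) (τX a g) = τX a (A p g))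
    (p : ℝ × E 3) (hp : p ∈ domE 3 e₀ M) :
    Rel (n0 EM N p) (n1 EM A p) ∧ Rel (n1 EM A p) (n2 EM A p) ∧ Rel (n2 EM A p) (n3 EM A p) := by
  obtain ⟨ε, u⟩ := p
  have hD : (ε, EM.drop 2 u) ∈ domE 2 e₀ M := drop_dom EM hp
  -- components
  set v := EM.drop 2 u with hv
  set q := EM.sh 2 u with hq
  have hDa : ∀ a : ℝ, ((ε, EM.τE 2 a v) : ℝ × E 2) ∈ domE 2 e₀ M := fun a => τ_dom EM hD a
  have hz : ∀ a, prL 2 0 (EM.τE 2 a q) = τX a (prL 3 1 u) := by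
    intro a
    have e1 : prL 2 0 (EM.τE 2 a q) = (EM.τE 2 a q : Fin 3 → X) 0 := rfl
    rw [e1, EM.τE_ev, hq, EM.sh_ev]
    rfl
  have hx1 : ∀ a : ℝ, 0 < a → HasDerivAt (fun a => τX a (prL 3 1 u)) (-τX a (prL 3 2 u)) a :=
    fun a ha => (rel_comp u 1).curve a ha
  have hx2 : ∀ a : ℝ, 0 < a → HasDerivAt (fun a => τX a (prL 3 2 u)) (-τX a (prL 3 3 u)) a :=
    fun a ha => (rel_comp u 2).curve a ha
  have hτ : ∀ a : ℝ, ∀ p ∈ domE 2 e₀ M, ((p.1, EM.τE 2 a p.2) : ℝ × E 2) ∈ domE 2 e₀ M :=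
    fun a p hp => τ_dom EM hp a
  have E1 : ∀ a : ℝ, 0 ≤ a → ∀ g : X, fderiv ℝ A (ε, EM.τE 2 a v) (0, EM.τE 2 a q) (τX a g)
      = τX a (fderiv ℝ A (ε, v) (0, q) g) :=
    fun a ha g => H.eqv1 (hτ a) (fun p hp g => hA p hp a ha g) hD q g
  have E2 : ∀ a : ℝ, 0 ≤ a → ∀ g : X, fderiv ℝ (fderiv ℝ A) (ε, EM.τE 2 a v) (0, EM.τE 2 a q)
      (0, EM.τE 2 a q) (τX a g) = τX a (fderiv ℝ (fderiv ℝ A) (ε, v) (0, q) (0, q) g) :=
    fun a ha g => H.eqv2 (hτ a) (fun p hp g => hA p hp a ha g) hD q q g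
  refine ⟨rel_of_curve fun a ha => ?_, rel_of_curve fun a ha => ?_, rel_of_curve fun a ha => ?_⟩
  · have c := H.claim0 (ε := ε) (v := fun a => EM.τE 2 a v) (p := fun a => EM.τE 2 a q)
      (hDa a) (curve_v EM u a ha)
    have ev : (fun b => τX b (n0 EM N (ε, u))) =ᶠ[𝓝 a] fun b => N (ε, EM.τE 2 b v) := by
      filter_upwards [isOpen_Ioi.mem_nhds (show a ∈ Ioi (0 : ℝ) from ha)] with b hb
      exact (hN (ε, v) hD b (le_of_lt hb)).symm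
    refine (c.congr_of_eventuallyEq ev).congr_deriv ?_
    rw [hz a, hA (ε, v) hD a ha.le]
    rfl
  · have c := H.claim1 (ε := ε) (v := fun a => EM.τE 2 a v) (p := fun a => EM.τE 2 a q)
      (hDa a) (curve_v EM u a ha) (y1 := fun a => τX a (prL 3 1 u)) (hx1 a ha)
    have ev : (fun b => τX b (n1 EM A (ε, u))) =ᶠ[𝓝 a]
        fun b => A (ε, EM.τE 2 b v) (τX b (prL 3 1 u)) := by
      filter_upwards [isOpen_Ioi.mem_nhds (show a ∈ Ioi (0 : ℝ) from ha)] with b hb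
      exact (hA (ε, v) hD b (le_of_lt hb) _).symm
    refine (c.congr_of_eventuallyEq ev).congr_deriv ?_
    rw [hA (ε, v) hD a ha.le, E1 a ha.le, ← map_add]
    rfl
  · have c := H.claim2 (ε := ε) (v := fun a => EM.τE 2 a v) (p := fun a => EM.τE 2 a q)
      (hDa a) (curve_v EM u a ha) (cont_p EM q).continuousAt
      (x1 := fun a => τX a (prL 3 1 u)) (x2 := fun a => τX a (prL 3 2 u))
      (x3 := fun a => τX a (prL 3 3 u)) hz (hx1 a ha) (hx2 a ha)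
    have ev : (fun b => τX b (n2 EM A (ε, u))) =ᶠ[𝓝 a]
        fun b => A (ε, EM.τE 2 b v) (τX b (prL 3 2 u))
          + fderiv ℝ A (ε, EM.τE 2 b v) (0, EM.τE 2 b q) (τX b (prL 3 1 u)) := by
      filter_upwards [isOpen_Ioi.mem_nhds (show a ∈ Ioi (0 : ℝ) from ha)] with b hb
      rw [hA (ε, v) hD b (le_of_lt hb), E1 b (le_of_lt hb), ← map_add]
      rfl
    refine (c.congr_of_eventuallyEq ev).congr_deriv ?_
    rw [hA (ε, v) hD a ha.le, E1 a ha.le, E2 a ha.le, ← map_smul, ← map_add, ← map_add]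
    rfl

/-- the lifted tuple -/
def tup (EM : EMaps) (N : ℝ × E 2 → X) (A : ℝ × E 2 → (X →L[ℝ] X)) (p : ℝ × E 3) : Fin 4 → X :=
  ![n0 EM N p, n1 EM A p, n2 EM A p, n3 EM A p]

theorem tup_mem (EM : EMaps) (H : Hyp (domE 2 e₀ M) N A (prL 2 0))
    (hN : ∀ p ∈ domE 2 e₀ M, ∀ a : ℝ, 0 ≤ a → N (p.1, EM.τE 2 a p.2) = τX a (N p))
    (hA : ∀ p ∈ domE 2 e₀ M, ∀ a : ℝ, 0 ≤ a → ∀ g : X,
      A (p.1, EM.τE 2 a p.2) (τX a g) = τX a (A p g))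
    (p : ℝ × E 3) (hp : p ∈ domE 3 e₀ M) : tup EM N A p ∈ E 3 := by
  obtain ⟨h0, h1, h2⟩ := lift_main EM H hN hA p hp
  intro i
  fin_cases i
  · exact h0
  · exact h1
  · exact h2

theorem tup_smooth (EM : EMaps) (H : Hyp (domE 2 e₀ M) N A (prL 2 0)) :
    ContDiffOn ℝ ∞ (tup EM N A) (domE 3 e₀ M) := by
  rw [contDiffOn_pi]
  intro i
  fin_cases i
  · exact H.smN.comp (drp EM).contDiff.contDiffOn maps_drp
  · exact smooth_n1 H 1
  · exact (smooth_n1 H 2).add (smooth_n2 H 1)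
  · exact ((smooth_n1 H 3).add ((smooth_n2 H 2).const_smul (3 : ℝ))).add (smooth_n3 H 1)

theorem lift : P_lift := by
  intro EM e₀ M N A hN hA hd heN heA
  have H : Hyp (domE 2 e₀ M) N A (prL 2 0) := ⟨isOpen_domE 2 e₀ M, hN, hA, hd⟩
  classical
  let N₃ : ℝ × E 3 → E 3 := fun p => if hp : p ∈ domE 3 e₀ M then
    ⟨tup EM N A p, tup_mem EM H heN heA p hp⟩ else 0
  have hN₃ : ∀ p (hp : p ∈ domE 3 e₀ M), N₃ p = ⟨tup EM N A p, tup_mem EM H heN heA p hp⟩ :=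
    fun p hp => dif_pos hp
  have := EM.complete 3
  refine ⟨N₃, ?_, ?_⟩
  · refine Pool.Agent.W803.Uni.contDiffOn_of_isometry (n := ⊤) (E 3).subtypeₗᵢ
      (isOpen_domE 3 e₀ M) ?_
    refine (tup_smooth EM H).congr fun p hp => ?_
    show ((N₃ p : E 3) : Fin 4 → X) = _
    rw [hN₃ p hp]
  · intro p hp
    rw [hN₃ p hp]
    rfl

end

end Pool.Agent.W668.Uni.Lift
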