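import Pool.Agent.W668.Uni.Stmts

/-!
# Landsberg unicorn (S13672): the final form of UNI-THETA
-/

set_option autoImplicit false

open Set MeasureTheory
open scoped ContDiff Topology

namespace Pool.Agent.W668.Uni

noncomputable section

/-- UNI-THETA, final form: `P_theta` together with the uniqueness of the maximiser mod `L` -/
def P_theta2 : Prop := ∀ (f Φ : ℝ → ℝ) (L : ℝ) (U : Set (Fin 2 → ℝ))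
  (S T : (Fin 2 → ℝ) × ℝ → ℝ), PerData f Φ L U S T →
  (∃ F : (Fin 2 → ℝ) → (Fin 2 → ℝ) → ℝ,
    (∀ x ∈ U, ∀ y : Fin 2 → ℝ, ∀ t : ℝ, 0 < t → F x (t • y) = t * F x y) ∧
    (∀ x ∈ U, ∀ θ : ℝ, ∀ y : Fin 2 → ℝ, dx T x θ y = 0 → 0 < dx S x θ y →
      F x y = dx S x θ y) ∧
    ∀ x ∈ U, ∀ y : Fin 2 → ℝ, y ≠ 0 → ∃ (W : Set ((Fin 2 → ℝ) × (Fin 2 → ℝ)))
      (ϑ : (Fin 2 → ℝ) × (Fin 2 → ℝ) → ℝ), IsOpen W ∧ (x, y) ∈ W ∧ ContDiffOn ℝ ∞ ϑ W ∧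
      ∀ q ∈ W, q.1 ∈ U ∧ F q.1 q.2 = dx S q.1 (ϑ q) q.2 ∧ dx T q.1 (ϑ q) q.2 = 0 ∧
        0 < F q.1 q.2) ∧
  ∀ x ∈ U, ∀ (θ θ' : ℝ) (y : Fin 2 → ℝ), dx T x θ y = 0 → 0 < dx S x θ y →
    dx T x θ' y = 0 → 0 < dx S x θ' y → ∃ n : ℤ, θ' = θ + n * L

end

end Pool.Agent.W668.Uni
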