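import Pool.Agent.W668.Uni.Geo5
import Pool.Agent.W287.UniOps
import Pool.Agent.W396.UniEta
import Pool.Agent.W995.Uni.Smo
import Pool.Agent.W375.Uni.Der
import Pool.Agent.W107.UniA1
import Pool.Agent.W174.Uni.Sph
import Pool.Agent.W596.Uni.Inj
import Pool.Agent.W596.Uni.F0
import Pool.Agent.W466.Uni.Path
import Pool.Agent.W64.Uni.Abel
import Pool.Agent.W766.UniLead
import Pool.Agent.W131.Uni.Lin
import Pool.Agent.W803.Uni.Jet
import Pool.Agent.W803.Uni.Flow
import Pool.Agent.W238.Uni.Wfn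
import Pool.Agent.W148.UniIft
import Pool.Agent.W86.UniTime
import Pool.Agent.W693.Uni.N3
import Pool.Agent.W722.Uni.Iso
import Pool.Agent.W701.UniOrb
import Pool.Agent.W230.Uni.Per
import Pool.Agent.W87.UniTheta2

/-!
# Landsberg unicorn: assembly of the pieces
-/

set_option autoImplicit false

namespace Pool.Agent.W668.Uni

theorem abel : P_abel :=
  Pool.Agent.W64.Uni.abel Pool.Agent.W107.UniA1.main Pool.Agent.W174.Uni.sph
    (Pool.Agent.W596.Uni.inj Pool.Agent.W174.Uni.sph) Pool.Agent.W466.UniPath.path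

theorem injP : P_inj := Pool.Agent.W596.Uni.inj Pool.Agent.W174.Uni.sph

theorem wfnP : P_wfn :=
  Pool.Agent.W238.Uni.wfn Pool.Agent.W995.Uni.smo Pool.Agent.W766.UniLead.t_lead injP

theorem N3P (hk : P_khat) (hl : P_lift) : P_N3 :=
  Pool.Agent.W693.Uni.uniN3 Pool.Agent.W995.Uni.smo Pool.Agent.W375.Uni.der hk abel injP hl

theorem asm (hk : P_khat) (hl : P_lift)
    (hs : P_N3 → P_smo → P_eta → P_inj → P_lead → P_F0 → P_lin → P_jet → P_wfn → P_ift → P_sol) :
    P_per :=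
  Pool.Agent.W230.Uni.per
    (Pool.Agent.W722.Uni.iso_proof Pool.Agent.W287.UniOps.uni_ops
      (hs (N3P hk hl) Pool.Agent.W995.Uni.smo Pool.Agent.W396.UniEta.uni_eta injP
        Pool.Agent.W766.UniLead.t_lead (Pool.Agent.W596.Uni.f0data Pool.Agent.W174.Uni.sph)
        Pool.Agent.W131.Uni.main Pool.Agent.W803.Uni.jet_main wfnP
        Pool.Agent.W148.Uni.uni_ift) uni_time)
    Pool.Agent.W701.UniOrb.orb Pool.Agent.W803.Uni.flow_main

end Pool.Agent.W668.Uni
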