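import Mathlib

/-!
# Landsberg unicorn (S13672): common definitions of the analytic part

`I1 = [0,1]`, `Th = [0, π/2]`, `X = C([0,1])`, `Y = C([0,1] × [0, π/2])`.
`evX f x`, `evY h y t` evaluate at real numbers (projected to the intervals).
-/

set_option autoImplicit false

open Set MeasureTheory
open scoped ContDiff Topology

namespace Pool.Agent.W668.Uni

noncomputable section

/-- the interval `[0,1]` -/
abbrev I1 := Set.Icc (0 : ℝ) 1

/-- the interval `[0, π/2]` -/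
abbrev Th := Set.Icc (0 : ℝ) (Real.pi / 2)

/-- `C([0,1])` -/
abbrev X := C(I1, ℝ)

/-- `C([0,1] × [0, π/2])` (first variable `y`, second variable the angle `t`) -/
abbrev Y := C(I1 × Th, ℝ)

theorem Th_le : (0 : ℝ) ≤ Real.pi / 2 := by positivity

/-- evaluation of `f ∈ X` at a real number (projected to `[0,1]`) -/
def evX (f : X) (x : ℝ) : ℝ := f (Set.projIcc (0 : ℝ) 1 zero_le_one x)

/-- evaluation of `h ∈ Y` at real numbers (projected to the intervals) -/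
def evY (h : Y) (y t : ℝ) : ℝ :=
  h (Set.projIcc (0 : ℝ) 1 zero_le_one y, Set.projIcc (0 : ℝ) (Real.pi / 2) Th_le t)

/-- restriction of a function on `ℝ` to `[0,1]`, as an element of `X` (`0` if not continuous) -/
def mkX (u : ℝ → ℝ) : X := by
  classical
  exact if h : Continuous (fun x : I1 => u x) then ⟨fun x => u x, h⟩ else 0

/-- `w = sin t` as an element of `Y` -/
def w : Y := ⟨fun z => Real.sin z.2, by fun_prop⟩

/-- `c = cos t` as an element of `Y` -/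
def c : Y := ⟨fun z => Real.cos z.2, by fun_prop⟩

/-- `e^{-|a|} ∈ (0,1]` acts on `[0,1]` -/
def dil (a : ℝ) : C(I1, I1) :=
  ⟨fun x => ⟨Real.exp (-|a|) * x, mul_nonneg (Real.exp_pos _).le x.2.1, by
      have h1 : Real.exp (-|a|) ≤ 1 := Real.exp_le_one_iff.2 (by simp)
      calc Real.exp (-|a|) * (x : ℝ) ≤ 1 * 1 :=
            mul_le_mul h1 x.2.2 x.2.1 zero_le_one
        _ = 1 := one_mul 1⟩, by fun_prop⟩

/-- composition with a continuous map as a continuous linear map -/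
def compL {Z W : Type*} [TopologicalSpace Z] [CompactSpace Z] [TopologicalSpace W]
    [CompactSpace W] (m : C(Z, W)) : C(W, ℝ) →L[ℝ] C(Z, ℝ) :=
  LinearMap.mkContinuous
    { toFun := fun h => h.comp m
      map_add' := fun _ _ => rfl
      map_smul' := fun _ _ => rfl } 1 (by
      intro h
      rw [one_mul]
      refine (ContinuousMap.norm_le _ (norm_nonneg _)).2 fun z => ?_
      exact ContinuousMap.norm_coe_le_norm h (m z))

/-- the dilation semigroup on `X`: `(τX a f)(x) = f(e^{-|a|} x)` -/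
def τX (a : ℝ) : X →L[ℝ] X := compL (dil a)

/-- the dilation semigroup on `Y`: `(τY a h)(y,t) = h(e^{-|a|} y, t)` -/
def τY (a : ℝ) : Y →L[ℝ] Y := compL ((dil a).prodMap (ContinuousMap.id Th))

/-- The linear operators of the problem, given by their characterisations
(all of them exist: `Nonempty Ops`, subtask `UNI-OPS`). -/
structure Ops where
  /-- `(lift f)(y,t) = f(y cos t)` -/
  lift : X →L[ℝ] Y
  lift_ev : ∀ (f : X) (y t : ℝ), 0 ≤ y → y ≤ 1 → 0 ≤ t → t ≤ Real.pi / 2 →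
    evY (lift f) y t = evX f (y * Real.cos t)
  lift_norm : ∀ f : X, ‖lift f‖ ≤ ‖f‖
  /-- `(S3 h)(y,t) = sin^{-3} t ∫_0^t sin² s h(y,s) ds` -/
  S3 : Y →L[ℝ] Y
  S3_ev : ∀ (h : Y) (y t : ℝ), 0 ≤ t → t ≤ Real.pi / 2 →
    Real.sin t ^ 3 * evY (S3 h) y t = ∫ s in (0 : ℝ)..t, Real.sin s ^ 2 * evY h y s
  S3_norm : ∀ h : Y, ‖S3 h‖ ≤ ‖h‖
  /-- `(J h)(y,t) = ∫_0^t h(y,s) ds` -/
  J : Y →L[ℝ] Y
  J_ev : ∀ (h : Y) (y t : ℝ), 0 ≤ t → t ≤ Real.pi / 2 →
    evY (J h) y t = ∫ s in (0 : ℝ)..t, evY h y s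
  /-- `(K h)(y,t) = ∫_t^{π/2} h(y,s) ds` -/
  K : Y →L[ℝ] Y
  K_ev : ∀ (h : Y) (y t : ℝ), 0 ≤ t → t ≤ Real.pi / 2 →
    evY (K h) y t = ∫ s in t..(Real.pi / 2), evY h y s
  /-- `(W h)(y) = ∫_0^{π/2} sin² s h(y,s) ds` -/
  W : Y →L[ℝ] X
  W_ev : ∀ (h : Y) (y : ℝ),
    evX (W h) y = ∫ s in (0 : ℝ)..(Real.pi / 2), Real.sin s ^ 2 * evY h y s
  /-- `(b f)(x) = ∫_0^1 u f(xu) du` -/
  b : X →L[ℝ] X
  b_ev : ∀ (f : X) (x : ℝ), 0 ≤ x → x ≤ 1 →
    evX (b f) x = ∫ u in (0 : ℝ)..1, u * evX f (x * u)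
  /-- `(Q f)(x) = ∫_0^{π/2} sin³ p f(x sin p) dp` -/
  Q : X →L[ℝ] X
  Q_ev : ∀ (f : X) (x : ℝ), 0 ≤ x → x ≤ 1 →
    evX (Q f) x = ∫ p in (0 : ℝ)..(Real.pi / 2), Real.sin p ^ 3 * evX f (x * Real.sin p)

/-- `P g (y) = 4 ∫_0^{π/2} sin² t cos² t g(y cos t) dt` -/
def Ops.P (O : Ops) (g : X) : X := O.W ((4 : ℝ) • (c ^ 2 * O.lift g))

/-! ### The spaces `E k` of functions with `k` continuous `D = x d/dx` derivatives -/

/-- `E k`: tuples `(u_0, …, u_k)` in `C([0,1])` with `u_{i+1} = D u_i`, `D = x d/dx`, in the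
integrated form `u_i(x) - u_i(e^{-a} x) = ∫_0^a u_{i+1}(e^{-s} x) ds`. -/
def E (k : ℕ) : Submodule ℝ (Fin (k + 1) → X) where
  carrier := {u | ∀ i : Fin k, ∀ a : ℝ, 0 ≤ a → ∀ x : ℝ, 0 ≤ x → x ≤ 1 →
    evX (u i.castSucc) x - evX (u i.castSucc) (Real.exp (-a) * x)
      = ∫ s in (0 : ℝ)..a, evX (u i.succ) (Real.exp (-s) * x)}
  add_mem' := by
    intro u v hu hv i a ha x hx0 hx1
    have h1 := hu i a ha x hx0 hx1
    have h2 := hv i a ha x hx0 hx1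
    have e1 : ∀ z : ℝ, evX ((u + v) i.castSucc) z
        = evX (u i.castSucc) z + evX (v i.castSucc) z := fun z => rfl
    have e2 : ∀ z : ℝ, evX ((u + v) i.succ) z
        = evX (u i.succ) z + evX (v i.succ) z := fun z => rfl
    have cont : ∀ f : X, Continuous (fun s : ℝ => evX f (Real.exp (-s) * x)) := by
      intro f
      unfold evX
      exact f.continuous.comp (continuous_projIcc.comp (by fun_prop))
    simp only [e1, e2]
    rw [intervalIntegral.integral_add ((cont _).intervalIntegrable _ _)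
      ((cont _).intervalIntegrable _ _), ← h1, ← h2]
    ring
  zero_mem' := by
    intro i a ha x hx0 hx1
    have e1 : ∀ z : ℝ, evX (0 : X) z = 0 := fun z => rfl
    simp [e1]
  smul_mem' := by
    intro r u hu i a ha x hx0 hx1
    have h1 := hu i a ha x hx0 hx1
    have e1 : ∀ z : ℝ, evX ((r • u) i.castSucc) z = r * evX (u i.castSucc) z := fun z => rfl
    have e2 : ∀ z : ℝ, evX ((r • u) i.succ) z = r * evX (u i.succ) z := fun z => rfl
    simp only [e1, e2]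
    rw [intervalIntegral.integral_const_mul, ← h1]
    ring

theorem continuous_evX (f : X) : Continuous (evX f) := by
  unfold evX
  exact f.continuous.comp continuous_projIcc

theorem continuous_evY (h : Y) : Continuous (fun p : ℝ × ℝ => evY h p.1 p.2) := by
  unfold evY
  exact h.continuous.comp ((continuous_projIcc.comp continuous_fst).prodMk
    (continuous_projIcc.comp continuous_snd))

/-- The component maps and structure maps between the spaces `E k`, given by their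
characterisations (all exist and `E k` is complete: subtask `UNI-OPS`). -/
structure EMaps where
  complete : ∀ k : ℕ, CompleteSpace (E k)
  /-- `(u_0,…,u_{k+1}) ↦ (u_0,…,u_k)` -/
  drop : ∀ k : ℕ, E (k + 1) →L[ℝ] E k
  drop_ev : ∀ (k : ℕ) (u : E (k + 1)) (i : Fin (k + 1)),
    (drop k u : Fin (k + 1) → X) i = (u : Fin (k + 2) → X) i.castSucc
  /-- `D`: `(u_0,…,u_{k+1}) ↦ (u_1,…,u_{k+1})` -/
  sh : ∀ k : ℕ, E (k + 1) →L[ℝ] E k
  sh_ev : ∀ (k : ℕ) (u : E (k + 1)) (i : Fin (k + 1)),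
    (sh k u : Fin (k + 1) → X) i = (u : Fin (k + 2) → X) i.succ
  /-- dilation semigroup on `E k` -/
  τE : ∀ k : ℕ, ℝ → E k →L[ℝ] E k
  τE_ev : ∀ (k : ℕ) (a : ℝ) (u : E k) (i : Fin (k + 1)),
    (τE k a u : Fin (k + 1) → X) i = τX a ((u : Fin (k + 1) → X) i)

/-- zeroth component -/
def z0 {k : ℕ} (u : E k) : X := (u : Fin (k + 1) → X) 0

/-- the closed subspace of `E 3` of the functions vanishing on `[0, 1/4]` -/
def Ep : Submodule ℝ (E 3) where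
  carrier := {u | ∀ i : Fin 4, ∀ x : ℝ, 0 ≤ x → x ≤ 1 / 4 →
    evX ((u : Fin 4 → X) i) x = 0}
  add_mem' := by
    intro u v hu hv i x h0 h1
    have e : evX (((u + v : E 3) : Fin 4 → X) i) x
      = evX ((u : Fin 4 → X) i) x + evX ((v : Fin 4 → X) i) x := rfl
    rw [e, hu i x h0 h1, hv i x h0 h1, add_zero]
  zero_mem' := by
    intro i x _ _
    rfl
  smul_mem' := by
    intro r u hu i x h0 h1
    have e : evX (((r • u : E 3) : Fin 4 → X) i) x = r * evX ((u : Fin 4 → X) i) x := rfl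
    rw [e, hu i x h0 h1, mul_zero]

/-! ### The nonlinear quantities -/

/-- domain `{|ε| < e₀, ‖F‖ < M}` in `ℝ × Y` -/
def dom (e₀ M : ℝ) : Set (ℝ × Y) := {p | |p.1| < e₀ ∧ ‖p.2‖ < M}

/-- the equation `η = - S3 (F (1 + ε w η)) - (ε/2) w η²` -/
def EtaEq (O : Ops) (ε : ℝ) (F η : Y) : Prop :=
  η = - O.S3 (F * (1 + ε • (w * η))) - (ε / 2) • (w * η ^ 2)

/-- `η : ℝ × Y → Y` is the smooth solution map of `EtaEq` on `dom e₀ M`. -/
structure EtaSol (O : Ops) (M e₀ : ℝ) (η : ℝ × Y → Y) : Prop where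
  pos : 0 < e₀
  small : e₀ * M ≤ 1 / 8
  smooth : ContDiffOn ℝ ∞ η (dom e₀ M)
  eqn : ∀ p ∈ dom e₀ M, EtaEq O p.1 p.2 (η p)
  bound : ∀ p ∈ dom e₀ M, |p.1| * ‖η p‖ ≤ 1 / 4
  uniq : ∀ p ∈ dom e₀ M, ∀ η' : Y, |p.1| * ‖η'‖ ≤ 1 / 2 → EtaEq O p.1 p.2 η' → η' = η p

/-- `ϱ = 1 + ε w η` -/
def rho (ε : ℝ) (η : Y) : Y := 1 + ε • (w * η)

/-- `ξ = 2 η + ε w η²`, so `ϱ² = 1 + ε w ξ` -/
def xi (ε : ℝ) (η : Y) : Y := (2 : ℝ) • η + ε • (w * η ^ 2)

/-- `d = 1 + ε w³ ξ = cos² + ϱ² sin²` -/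
def dd (ε : ℝ) (η : Y) : Y := 1 + ε • (w ^ 3 * xi ε η)

/-- `1/ϱ` -/
def rhoi (ε : ℝ) (η : Y) : Y := Ring.inverse (rho ε η)

/-- `1/d` -/
def di (ε : ℝ) (η : Y) : Y := Ring.inverse (dd ε η)

/-- `Γ(y,t) = ε ∫_0^t F/ϱ` -/
def Gam (O : Ops) (ε : ℝ) (F η : Y) : Y := ε • O.J (F * rhoi ε η)

/-- `E = exp Γ` -/
def EE (O : Ops) (ε : ℝ) (F η : Y) : Y := NormedSpace.exp (Gam O ε F η)

/-- `1/E = exp (-Γ)` -/
def Ei (O : Ops) (ε : ℝ) (F η : Y) : Y := NormedSpace.exp (-(Gam O ε F η))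

/-- `∫_t^{π/2} F sin cos d^{-2} E^{-1}` -/
def KK (O : Ops) (ε : ℝ) (F η : Y) : Y :=
  O.K (F * w * c * (di ε η) ^ 2 * Ei O ε F η)

/-- `κ_E = - w² c (ξ_ε + ξ_{-ε}) / (d_ε d_{-ε})`, here `ηp = η_ε`, `ηm = η_{-ε}` -/
def kapE (ε : ℝ) (ηp ηm : Y) : Y :=
  -(w ^ 2 * c * (xi ε ηp + xi (-ε) ηm) * di ε ηp * di (-ε) ηm)

/-- `κ̂ = κ_E + 2 Σ_± ϱ E ∫_t^{π/2} F sin cos d^{-2} E^{-1}` -/
def kapH (O : Ops) (ε : ℝ) (F ηp ηm : Y) : Y :=
  kapE ε ηp ηm + (2 : ℝ) • (rho ε ηp * EE O ε F ηp * KK O ε F ηp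
    + rho (-ε) ηm * EE O (-ε) F ηm * KK O (-ε) F ηm)

/-- `κ_E` as a function on `ℝ × Y` (for a given solution map `η`) -/
def kE (η : ℝ × Y → Y) (p : ℝ × Y) : Y := kapE p.1 (η p) (η (-p.1, p.2))

/-- `κ̂` as a function on `ℝ × Y` -/
def kH (O : Ops) (η : ℝ × Y → Y) (p : ℝ × Y) : Y := kapH O p.1 p.2 (η p) (η (-p.1, p.2))

/-- the normalised half period `T̂(ε,F)(y) = ∫_0^{π/2} F sin² κ_E dt`, so that the half
period is `π + ε² T̂` -/
def That (O : Ops) (η : ℝ × Y → Y) (p : ℝ × Y) : X := O.W (p.2 * kE η p)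

/-- `JetOK k`: `k 0 = κ` has continuous derivatives `kd = y ∂_y κ`, `kv = cos t ∂_t κ`,
`k 1 = 2κ + sin² t kd + sin t kv`, `k 2 = y ∂_y (k 1)`, `k 3 = cos t ∂_t (k 1)`
(classical partial derivatives in the open rectangle, all six functions continuous on the
closed rectangle). -/
def JetOK (k : Fin 4 → Y) : Prop :=
  ∃ kd kv : Y,
    (∀ y t : ℝ, 0 < y → y < 1 → 0 < t → t < Real.pi / 2 →
      HasDerivAt (fun y' => evY (k 0) y' t) (evY kd y t / y) y ∧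
      HasDerivAt (fun t' => evY (k 0) y t') (evY kv y t / Real.cos t) t ∧
      HasDerivAt (fun y' => evY (k 1) y' t) (evY (k 2) y t / y) y ∧
      HasDerivAt (fun t' => evY (k 1) y t') (evY (k 3) y t / Real.cos t) t) ∧
    k 1 = (2 : ℝ) • k 0 + w ^ 2 * kd + w * kv

end

end Pool.Agent.W668.Uni
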