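import Pool.Agent.W668.Uni.Stmts2

/-!
# Landsberg unicorn: calculus of the family `S(x,θ)`, `T = S_θ`, `T_θ = Φ(T) - S`
-/

set_option autoImplicit false

open Set MeasureTheory
open scoped ContDiff Topology

namespace Pool.Agent.W668.Uni.Geo

noncomputable section

abbrev V2 := Fin 2 → ℝ
abbrev QT := (Fin 2 → ℝ) × ℝ

/-- second derivative of `h` at `q`, `D²h(q)[ξ, ζ]` -/
def D2 (h : QT → ℝ) (q : QT) (ξ ζ : QT) : ℝ := fderiv ℝ (fderiv ℝ h) q ξ ζ

theorem D2_symm {h : QT → ℝ} (hh : ContDiff ℝ ∞ h) (q ξ ζ : QT) :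
    D2 h q ξ ζ = D2 h q ζ ξ := by
  have h1 : IsSymmSndFDerivAt ℝ h q :=
    (hh.contDiffAt).isSymmSndFDerivAt (by
      rw [minSmoothness_of_isRCLikeNormedField]
      exact WithTop.coe_le_coe.2 (le_top : (2 : ℕ∞) ≤ ⊤))
  exact h1.eq ξ ζ

theorem fderiv_smooth {h : QT → ℝ} (hh : ContDiff ℝ ∞ h) : ContDiff ℝ ∞ (fderiv ℝ h) :=
  hh.fderiv_right (m := ∞) (by exact_mod_cast le_top)

/-- the derivative of `q ↦ Dh(q)[ζ]` in the direction `ξ` is `D²h(q)[ξ,ζ]` -/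
theorem hasFDerivAt_dir {h : QT → ℝ} (hh : ContDiff ℝ ∞ h) (q ζ : QT) :
    HasFDerivAt (fun q => fderiv ℝ h q ζ) ((fderiv ℝ (fderiv ℝ h) q).flip ζ) q := by
  have h1 : HasFDerivAt (fderiv ℝ h) (fderiv ℝ (fderiv ℝ h) q) q :=
    ((fderiv_smooth hh).differentiable (by simp)).differentiableAt.hasFDerivAt
  have h2 := h1.clm_apply (hasFDerivAt_const ζ q)
  have e : fderiv ℝ h q ∘SL (0 : QT →L[ℝ] QT) + (fderiv ℝ (fderiv ℝ h) q).flip ζ
      = (fderiv ℝ (fderiv ℝ h) q).flip ζ := by simp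
  rw [e] at h2
  exact h2

theorem smooth_dir {h : QT → ℝ} (hh : ContDiff ℝ ∞ h) (ζ : QT) :
    ContDiff ℝ ∞ (fun q => fderiv ℝ h q ζ) :=
  (fderiv_smooth hh).clm_apply contDiff_const

theorem fderiv_dir {h : QT → ℝ} (hh : ContDiff ℝ ∞ h) (q ξ ζ : QT) :
    fderiv ℝ (fun q => fderiv ℝ h q ζ) q ξ = D2 h q ξ ζ := by
  rw [(hasFDerivAt_dir hh q ζ).fderiv]
  rfl

theorem hfda {h : QT → ℝ} (hh : ContDiff ℝ ∞ h) (q : QT) : HasFDerivAt h (fderiv ℝ h q) q :=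
  (hh.differentiable (by simp)).differentiableAt.hasFDerivAt

/-- derivative in the `θ` direction -/
theorem fderiv_theta {h : QT → ℝ} (hh : ContDiff ℝ ∞ h) (x : V2) (θ d : ℝ)
    (hd : HasDerivAt (fun s => h (x, s)) d θ) : fderiv ℝ h (x, θ) (0, 1) = d := by
  have h1 : HasDerivAt (fun s : ℝ => ((x, s) : QT)) ((0 : V2), (1 : ℝ)) θ :=
    (hasDerivAt_const θ x).prodMk (hasDerivAt_id θ)
  have h2 := (hfda hh (x, θ)).comp_hasDerivAt θ h1
  exact h2.unique hd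

theorem hasDerivAt_theta {h : QT → ℝ} (hh : ContDiff ℝ ∞ h) (x : V2) (θ : ℝ) :
    HasDerivAt (fun s => h (x, s)) (fderiv ℝ h (x, θ) (0, 1)) θ := by
  have h1 : HasDerivAt (fun s : ℝ => ((x, s) : QT)) ((0 : V2), (1 : ℝ)) θ :=
    (hasDerivAt_const θ x).prodMk (hasDerivAt_id θ)
  exact (hfda hh (x, θ)).comp_hasDerivAt θ h1

/-- coordinate vectors in `QT` -/
def ev (j : Fin 2) : QT := (Pi.single j 1, 0)

/-- `α_j = ∂_{x_j} S` -/
def al (S : QT → ℝ) (j : Fin 2) (q : QT) : ℝ := fderiv ℝ S q (ev j)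

/-- `σ_{kj} = ∂_{x_k} ∂_{x_j} S` -/
def si (S : QT → ℝ) (k j : Fin 2) (q : QT) : ℝ := D2 S q (ev k) (ev j)

theorem al_smooth {S : QT → ℝ} (hS : ContDiff ℝ ∞ S) (j : Fin 2) : ContDiff ℝ ∞ (al S j) :=
  smooth_dir hS _

theorem si_smooth {S : QT → ℝ} (hS : ContDiff ℝ ∞ S) (k j : Fin 2) : ContDiff ℝ ∞ (si S k j) := by
  have h := smooth_dir (al_smooth hS j) (ev k)
  have e : (fun q => fderiv ℝ (al S j) q (ev k)) = si S k j := by
    funext q
    exact fderiv_dir hS q _ _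
  rwa [e] at h

theorem si_symm {S : QT → ℝ} (hS : ContDiff ℝ ∞ S) (k j : Fin 2) (q : QT) :
    si S k j q = si S j k q := D2_symm hS q _ _

theorem vec_eq (u : V2) (s : ℝ) : ((u, s) : QT) = u 0 • ev 0 + u 1 • ev 1 + s • ((0, 1) : QT) := by
  refine Prod.ext ?_ ?_
  · funext i
    fin_cases i <;> simp [ev]
  · simp [ev]

theorem vec_eq0 (u : V2) : ((u, 0) : QT) = u 0 • ev 0 + u 1 • ev 1 := by
  have := vec_eq u 0
  simpa using this

theorem dx_eq (S : QT → ℝ) (x : V2) (θ : ℝ) (y : V2) :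
    dx S x θ y = al S 0 (x, θ) * y 0 + al S 1 (x, θ) * y 1 := by
  unfold dx al
  rw [vec_eq0 y, map_add, map_smul, map_smul]
  simp only [smul_eq_mul]
  ring

/-- the data of a family of solutions -/
structure Fam (f Φ : ℝ → ℝ) (S T : QT → ℝ) : Prop where
  f_smooth : ContDiff ℝ ∞ f
  Φ_der : ∀ p, HasDerivAt Φ (f p) p
  S_smooth : ContDiff ℝ ∞ S
  T_smooth : ContDiff ℝ ∞ T
  S_der : ∀ x θ, HasDerivAt (fun s => S (x, s)) (T (x, θ)) θ
  T_der : ∀ x θ, HasDerivAt (fun s => T (x, s)) (Φ (T (x, θ)) - S (x, θ)) θ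

variable {f Φ : ℝ → ℝ} {S T : QT → ℝ}

theorem Fam.Φ_smooth (h : Fam f Φ S T) : ContDiff ℝ ∞ Φ := by
  rw [contDiff_infty_iff_deriv]
  refine ⟨fun p => (h.Φ_der p).differentiableAt, ?_⟩
  have e : deriv Φ = f := funext fun p => (h.Φ_der p).deriv
  rw [e]
  exact h.f_smooth

theorem Fam.dS (h : Fam f Φ S T) : (fun q => fderiv ℝ S q (0, 1)) = T := by
  funext q
  exact fderiv_theta h.S_smooth q.1 q.2 _ (h.S_der q.1 q.2)

theorem Fam.dT (h : Fam f Φ S T) : (fun q => fderiv ℝ T q (0, 1)) = fun q => Φ (T q) - S q := by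
  funext q
  exact fderiv_theta h.T_smooth q.1 q.2 _ (h.T_der q.1 q.2)

/-- `∂_θ α_j = β_j` -/
theorem Fam.dal (h : Fam f Φ S T) (j : Fin 2) (q : QT) :
    fderiv ℝ (al S j) q (0, 1) = al T j q := by
  have h1 : fderiv ℝ (al S j) q (0, 1) = D2 S q (0, 1) (ev j) := fderiv_dir h.S_smooth q _ _
  rw [h1, D2_symm h.S_smooth, ← fderiv_dir h.S_smooth, h.dS]
  rfl

theorem Fam.Φ_fd (h : Fam f Φ S T) (q : QT) :
    HasFDerivAt (fun q => Φ (T q) - S q) (f (T q) • fderiv ℝ T q - fderiv ℝ S q) q := by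
  have h1 := (h.Φ_der (T q)).comp_hasFDerivAt q (hfda h.T_smooth q)
  exact h1.sub (hfda h.S_smooth q)

/-- `∂_θ β_j = f(T) β_j - α_j` -/
theorem Fam.dbe (h : Fam f Φ S T) (j : Fin 2) (q : QT) :
    fderiv ℝ (al T j) q (0, 1) = f (T q) * al T j q - al S j q := by
  have h1 : fderiv ℝ (al T j) q (0, 1) = D2 T q (0, 1) (ev j) := fderiv_dir h.T_smooth q _ _
  rw [h1, D2_symm h.T_smooth, ← fderiv_dir h.T_smooth, h.dT, (h.Φ_fd q).fderiv]
  simp [al]

/-- `∂_θ σ_{kj} = τ_{kj}` -/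
theorem Fam.dsi (h : Fam f Φ S T) (k j : Fin 2) (q : QT) :
    fderiv ℝ (si S k j) q (0, 1) = si T k j q := by
  have e : si S k j = fun q => fderiv ℝ (al S j) q (ev k) := by
    funext q
    exact (fderiv_dir h.S_smooth q _ _).symm
  rw [e, fderiv_dir (al_smooth h.S_smooth j), D2_symm (al_smooth h.S_smooth j),
    ← fderiv_dir (al_smooth h.S_smooth j)]
  have e2 : (fun q => fderiv ℝ (al S j) q (0, 1)) = al T j := funext fun q => h.dal j q
  rw [e2]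
  exact fderiv_dir h.T_smooth q _ _

/-- `∂_θ τ_{kj} = f(T) τ_{kj} - σ_{kj} + f'(T) β_k β_j` -/
theorem Fam.dta (h : Fam f Φ S T) (k j : Fin 2) (q : QT) :
    fderiv ℝ (si T k j) q (0, 1)
      = f (T q) * si T k j q - si S k j q + deriv f (T q) * al T k q * al T j q := by
  have e : si T k j = fun q => fderiv ℝ (al T j) q (ev k) := by
    funext q
    exact (fderiv_dir h.T_smooth q _ _).symm
  rw [e, fderiv_dir (al_smooth h.T_smooth j), D2_symm (al_smooth h.T_smooth j),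
    ← fderiv_dir (al_smooth h.T_smooth j)]
  have e2 : (fun q => fderiv ℝ (al T j) q (0, 1)) = fun q => f (T q) * al T j q - al S j q :=
    funext fun q => h.dbe j q
  rw [e2]
  have hf : HasDerivAt f (deriv f (T q)) (T q) :=
    ((h.f_smooth.differentiable (by simp)).differentiableAt).hasDerivAt
  have h1 := hf.comp_hasFDerivAt q (hfda h.T_smooth q)
  have h2 := (h1.mul (hfda (al_smooth h.T_smooth j) q)).sub (hfda (al_smooth h.S_smooth j) q)
  have h3 : HasFDerivAt (fun q => f (T q) * al T j q - al S j q) _ q := h2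
  rw [h3.fderiv]
  have e3 : fderiv ℝ (al T j) q (ev k) = si T k j q := fderiv_dir h.T_smooth q _ _
  have e4 : fderiv ℝ (al S j) q (ev k) = si S k j q := fderiv_dir h.S_smooth q _ _
  simp only [Function.comp, ContinuousLinearMap.sub_apply, ContinuousLinearMap.add_apply,
    ContinuousLinearMap.smul_apply, smul_eq_mul, e3, e4]
  unfold al
  ring

end

end Pool.Agent.W668.Uni.Geo
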