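import Pool.Agent.W668.Uni.Geo1

/-!
# Landsberg unicorn: dual frame and the connection `Γ`
-/

set_option autoImplicit false

open Set MeasureTheory
open scoped ContDiff Topology

namespace Pool.Agent.W668.Uni.Geo

noncomputable section

variable {f Φ : ℝ → ℝ} {S T : QT → ℝ}

/-- derivative of a smooth function along `s ↦ (x + s u, θ(s))` -/
theorem path_deriv {h : QT → ℝ} (hh : ContDiff ℝ ∞ h) (x u : V2) (θf : ℝ → ℝ) (θ' : ℝ)
    (hθ : HasDerivAt θf θ' 0) :
    HasDerivAt (fun s : ℝ => h (x + s • u, θf s))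
      (fderiv ℝ h (x, θf 0) (ev 0) * u 0 + fderiv ℝ h (x, θf 0) (ev 1) * u 1
        + fderiv ℝ h (x, θf 0) (0, 1) * θ') 0 := by
  have h1 : HasDerivAt (fun s : ℝ => x + s • u) u 0 := by
    have := ((hasDerivAt_id (0 : ℝ)).smul_const u).const_add x
    simpa using this
  have h2 : HasDerivAt (fun s : ℝ => ((x + s • u, θf s) : QT)) (u, θ') 0 := h1.prodMk hθ
  have e0 : ((x + (0 : ℝ) • u, θf 0) : QT) = (x, θf 0) := by simp
  have h3 := (hfda hh (x + (0 : ℝ) • u, θf 0)).comp_hasDerivAt (0 : ℝ) h2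
  have h4 : HasDerivAt (fun s : ℝ => h (x + s • u, θf s))
      (fderiv ℝ h (x + (0 : ℝ) • u, θf 0) (u, θ')) 0 := h3
  rw [e0, vec_eq u θ', map_add, map_add, map_smul, map_smul, map_smul] at h4
  simp only [smul_eq_mul] at h4
  convert h4 using 1
  ring

theorem fderiv_al (hS : ContDiff ℝ ∞ S) (j k : Fin 2) (q : QT) :
    fderiv ℝ (al S j) q (ev k) = si S k j q := fderiv_dir hS q _ _

theorem Fam.path_alS (h : Fam f Φ S T) (j : Fin 2) (x u : V2) (θf : ℝ → ℝ) (θ' : ℝ)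
    (hθ : HasDerivAt θf θ' 0) :
    HasDerivAt (fun s : ℝ => al S j (x + s • u, θf s))
      (si S 0 j (x, θf 0) * u 0 + si S 1 j (x, θf 0) * u 1 + al T j (x, θf 0) * θ') 0 := by
  have := path_deriv (al_smooth h.S_smooth j) x u θf θ' hθ
  rwa [fderiv_al h.S_smooth, fderiv_al h.S_smooth, h.dal] at this

theorem Fam.path_alT (h : Fam f Φ S T) (j : Fin 2) (x u : V2) (θf : ℝ → ℝ) (θ' : ℝ)
    (hθ : HasDerivAt θf θ' 0) :
    HasDerivAt (fun s : ℝ => al T j (x + s • u, θf s))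
      (si T 0 j (x, θf 0) * u 0 + si T 1 j (x, θf 0) * u 1
        + (f (T (x, θf 0)) * al T j (x, θf 0) - al S j (x, θf 0)) * θ') 0 := by
  have := path_deriv (al_smooth h.T_smooth j) x u θf θ' hθ
  rwa [fderiv_al h.T_smooth, fderiv_al h.T_smooth, h.dbe] at this

/-- the Wronskian -/
def De (S T : QT → ℝ) (q : QT) : ℝ := al S 0 q * al T 1 q - al S 1 q * al T 0 q

theorem Fam.hd_alS (h : Fam f Φ S T) (j : Fin 2) (x : V2) (θ : ℝ) :
    HasDerivAt (fun s => al S j (x, s)) (al T j (x, θ)) θ := by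
  have := hasDerivAt_theta (al_smooth h.S_smooth j) x θ
  rwa [h.dal] at this

theorem Fam.hd_alT (h : Fam f Φ S T) (j : Fin 2) (x : V2) (θ : ℝ) :
    HasDerivAt (fun s => al T j (x, s)) (f (T (x, θ)) * al T j (x, θ) - al S j (x, θ)) θ := by
  have := hasDerivAt_theta (al_smooth h.T_smooth j) x θ
  rwa [h.dbe] at this

theorem Fam.hd_siS (h : Fam f Φ S T) (k j : Fin 2) (x : V2) (θ : ℝ) :
    HasDerivAt (fun s => si S k j (x, s)) (si T k j (x, θ)) θ := by
  have := hasDerivAt_theta (si_smooth h.S_smooth k j) x θ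
  rwa [h.dsi] at this

theorem Fam.hd_siT (h : Fam f Φ S T) (k j : Fin 2) (x : V2) (θ : ℝ) :
    HasDerivAt (fun s => si T k j (x, s))
      (f (T (x, θ)) * si T k j (x, θ) - si S k j (x, θ)
        + deriv f (T (x, θ)) * al T k (x, θ) * al T j (x, θ)) θ := by
  have := hasDerivAt_theta (si_smooth h.T_smooth k j) x θ
  rwa [h.dta] at this

theorem Fam.hd_De (h : Fam f Φ S T) (x : V2) (θ : ℝ) :
    HasDerivAt (fun s => De S T (x, s)) (f (T (x, θ)) * De S T (x, θ)) θ := by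
  have h1 := ((h.hd_alS 0 x θ).mul (h.hd_alT 1 x θ)).sub ((h.hd_alS 1 x θ).mul (h.hd_alT 0 x θ))
  have h2 : HasDerivAt (fun s => De S T (x, s)) _ θ := h1
  convert h2 using 1
  unfold De
  ring

theorem Fam.De_pos (h : Fam f Φ S T) (x : V2) (h0 : De S T (x, 0) = 1) (θ : ℝ) :
    0 < De S T (x, θ) := by
  have hc : Continuous (fun s : ℝ => f (T (x, s))) :=
    h.f_smooth.continuous.comp (h.T_smooth.continuous.comp (by fun_prop))
  have hI : ∀ θ, HasDerivAt (fun t => ∫ s in (0 : ℝ)..t, f (T (x, s))) (f (T (x, θ))) θ :=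
    fun θ => intervalIntegral.integral_hasDerivAt_right (hc.intervalIntegrable _ _)
      (hc.stronglyMeasurableAtFilter _ _) hc.continuousAt
  set J : ℝ → ℝ := fun t => ∫ s in (0 : ℝ)..t, f (T (x, s)) with hJ
  have hg : ∀ θ, HasDerivAt (fun t => De S T (x, t) * Real.exp (-(J t))) 0 θ := by
    intro θ
    have h1 := (h.hd_De x θ).mul ((hI θ).neg.exp)
    have h2 : HasDerivAt (fun t => De S T (x, t) * Real.exp (-(J t))) _ θ := h1
    convert h2 using 1
    simp only [hJ]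
    ring
  have hconst : De S T (x, θ) * Real.exp (-(J θ)) = De S T (x, 0) * Real.exp (-(J 0)) :=
    is_const_of_deriv_eq_zero (fun θ => (hg θ).differentiableAt) (fun θ => (hg θ).deriv) θ 0
  have hJ0 : J 0 = 0 := by simp [hJ]
  rw [h0, hJ0] at hconst
  simp only [neg_zero, Real.exp_zero, mul_one] at hconst
  have hpos : 0 < Real.exp (-(J θ)) := Real.exp_pos _
  by_contra hneg
  push Not at hneg
  have : De S T (x, θ) * Real.exp (-(J θ)) ≤ 0 := mul_nonpos_of_nonpos_of_nonneg hneg hpos.le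
  linarith

/-- dual frame: `e` -/
def eV (S T : QT → ℝ) (i : Fin 2) (q : QT) : ℝ :=
  if i = 0 then al T 1 q / De S T q else -(al T 0 q) / De S T q

/-- dual frame: `f` -/
def fV (S T : QT → ℝ) (i : Fin 2) (q : QT) : ℝ :=
  if i = 0 then -(al S 1 q) / De S T q else al S 0 q / De S T q

theorem eV0 (q : QT) : eV S T 0 q = al T 1 q / De S T q := by simp [eV]
theorem eV1 (q : QT) : eV S T 1 q = -(al T 0 q) / De S T q := by simp [eV]
theorem fV0 (q : QT) : fV S T 0 q = -(al S 1 q) / De S T q := by simp [fV]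
theorem fV1 (q : QT) : fV S T 1 q = al S 0 q / De S T q := by simp [fV]

theorem Fam.hd_eV (h : Fam f Φ S T) (i : Fin 2) (x : V2) (θ : ℝ) (hD : De S T (x, θ) ≠ 0) :
    HasDerivAt (fun s => eV S T i (x, s)) (fV S T i (x, θ)) θ := by
  obtain rfl | rfl : i = 0 ∨ i = 1 := by fin_cases i <;> simp
  · have h1 := (h.hd_alT 1 x θ).fun_div (h.hd_De x θ) hD
    simp only [eV0, fV0]
    refine h1.congr_deriv ?_
    field_simp
    ring
  · have h1 := (h.hd_alT 0 x θ).fun_neg.fun_div (h.hd_De x θ) hD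
    simp only [eV1, fV1]
    refine h1.congr_deriv ?_
    field_simp
    ring

theorem Fam.hd_fV (h : Fam f Φ S T) (i : Fin 2) (x : V2) (θ : ℝ) (hD : De S T (x, θ) ≠ 0) :
    HasDerivAt (fun s => fV S T i (x, s))
      (-(eV S T i (x, θ)) - f (T (x, θ)) * fV S T i (x, θ)) θ := by
  obtain rfl | rfl : i = 0 ∨ i = 1 := by fin_cases i <;> simp
  · have h1 := (h.hd_alS 1 x θ).fun_neg.fun_div (h.hd_De x θ) hD
    simp only [eV0, fV0]
    refine h1.congr_deriv ?_
    field_simp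
  · have h1 := (h.hd_alS 0 x θ).fun_div (h.hd_De x θ) hD
    simp only [eV1, fV1]
    refine h1.congr_deriv ?_
    field_simp

/-- `Γ^i_{jk} = σ_{jk} e^i + τ_{jk} f^i` -/
def Ga (S T : QT → ℝ) (i j k : Fin 2) (q : QT) : ℝ :=
  si S j k q * eV S T i q + si T j k q * fV S T i q

theorem Fam.hd_Ga (h : Fam f Φ S T) (i j k : Fin 2) (x : V2) (θ : ℝ) (hD : De S T (x, θ) ≠ 0) :
    HasDerivAt (fun s => Ga S T i j k (x, s))
      (deriv f (T (x, θ)) * al T j (x, θ) * al T k (x, θ) * fV S T i (x, θ)) θ := by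
  have h1 := ((h.hd_siS j k x θ).mul (h.hd_eV i x θ hD)).add
    ((h.hd_siT j k x θ).mul (h.hd_fV i x θ hD))
  have h2 : HasDerivAt (fun s => Ga S T i j k (x, s)) _ θ := h1
  convert h2 using 1
  ring

theorem Fam.Ga_symm (h : Fam f Φ S T) (i j k : Fin 2) (q : QT) :
    Ga S T i j k q = Ga S T i k j q := by
  unfold Ga
  rw [si_symm h.S_smooth j k, si_symm h.T_smooth j k]

/-- `α·e = 1`, `α·f = 0`, `β·e = 0`, `β·f = 1` -/
theorem dual_rel (q : QT) (hD : De S T q ≠ 0) :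
    al S 0 q * eV S T 0 q + al S 1 q * eV S T 1 q = 1 ∧
    al S 0 q * fV S T 0 q + al S 1 q * fV S T 1 q = 0 ∧
    al T 0 q * eV S T 0 q + al T 1 q * eV S T 1 q = 0 ∧
    al T 0 q * fV S T 0 q + al T 1 q * fV S T 1 q = 1 := by
  unfold eV fV
  simp only [Fin.isValue, if_true, one_ne_zero, if_false]
  refine ⟨?_, ?_, ?_, ?_⟩
  · field_simp
    unfold De
    ring
  · field_simp
    ring
  · field_simp
    ring
  · field_simp
    unfold De
    ring

end

end Pool.Agent.W668.Uni.Geo
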