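import Pool.Agent.W668.Uni.Geo2

/-!
# Landsberg unicorn: derivatives of `F²` in terms of the family
-/

set_option autoImplicit false

open Set MeasureTheory
open scoped ContDiff Topology

namespace Pool.Agent.W668.Uni.Geo

noncomputable section

variable {f Φ : ℝ → ℝ} {S T : QT → ℝ}

abbrev VV := (Fin 2 → ℝ) × (Fin 2 → ℝ)

/-- local smooth maximiser -/
structure Loc (S T : QT → ℝ) (F : V2 → V2 → ℝ) (W : Set VV) (ϑ : VV → ℝ) : Prop where
  opn : IsOpen W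
  smooth : ContDiffOn ℝ ∞ ϑ W
  F_eq : ∀ q ∈ W, F q.1 q.2
    = al S 0 (q.1, ϑ q) * q.2 0 + al S 1 (q.1, ϑ q) * q.2 1
  crit : ∀ q ∈ W, al T 0 (q.1, ϑ q) * q.2 0 + al T 1 (q.1, ϑ q) * q.2 1 = 0
  pos : ∀ q ∈ W, 0 < F q.1 q.2

/-- `⟨α, v⟩` -/
def av (S : QT → ℝ) (v : V2) (p : QT) : ℝ := al S 0 p * v 0 + al S 1 p * v 1

/-- `σ(u, v)` -/
def sv (S : QT → ℝ) (u v : V2) (p : QT) : ℝ :=
  (si S 0 0 p * u 0 + si S 1 0 p * u 1) * v 0 + (si S 0 1 p * u 0 + si S 1 1 p * u 1) * v 1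

theorem sv_symm (hS : ContDiff ℝ ∞ S) (u v : V2) (p : QT) : sv S u v p = sv S v u p := by
  unfold sv
  rw [si_symm hS 1 0]
  ring

theorem line_hd (q : VV) (u v : V2) :
    HasDerivAt (fun s : ℝ => ((q.1 + s • u, q.2 + s • v) : VV)) (u, v) 0 := by
  have h1 : HasDerivAt (fun s : ℝ => q.1 + s • u) u 0 := by
    have := ((hasDerivAt_id (0 : ℝ)).smul_const u).const_add q.1
    simpa using this
  have h2 : HasDerivAt (fun s : ℝ => q.2 + s • v) v 0 := by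
    have := ((hasDerivAt_id (0 : ℝ)).smul_const v).const_add q.2
    simpa using this
  exact h1.prodMk h2

theorem line_zero (q : VV) (u v : V2) : ((q.1 + (0 : ℝ) • u, q.2 + (0 : ℝ) • v) : VV) = q := by
  simp

theorem line_mem {W : Set VV} (hW : IsOpen W) {q : VV} (hq : q ∈ W) (u v : V2) :
    ∀ᶠ s : ℝ in 𝓝 0, ((q.1 + s • u, q.2 + s • v) : VV) ∈ W := by
  have hc := (line_hd q u v).continuousAt
  refine hc.eventually_mem (hW.mem_nhds ?_)
  rw [line_zero]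
  exact hq

theorem comp_line (y v : V2) (j : Fin 2) :
    HasDerivAt (fun s : ℝ => (y + s • v) j) (v j) 0 := by
  have h := ((hasDerivAt_id (0 : ℝ)).mul_const (v j)).const_add (y j)
  simpa using h

variable {F : V2 → V2 → ℝ} {W : Set VV} {ϑ : VV → ℝ}

/-- the derivative of the maximiser -/
theorem Loc.thd (h : Fam f Φ S T) (L : Loc S T F W ϑ) {q : VV} (hq : q ∈ W) (u v : V2) :
    HasDerivAt (fun s : ℝ => ϑ (q.1 + s • u, q.2 + s • v))
      ((sv T u q.2 (q.1, ϑ q) + av T v (q.1, ϑ q)) / F q.1 q.2) 0 := by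
  have hd : DifferentiableAt ℝ ϑ q :=
    (L.smooth.contDiffAt (L.opn.mem_nhds hq)).differentiableAt (by simp)
  have h1 : HasDerivAt (fun s : ℝ => ϑ (q.1 + s • u, q.2 + s • v)) (fderiv ℝ ϑ q (u, v)) 0 := by
    have hd' : HasFDerivAt ϑ (fderiv ℝ ϑ q) (q.1 + (0 : ℝ) • u, q.2 + (0 : ℝ) • v) := by
      rw [line_zero]
      exact hd.hasFDerivAt
    exact hd'.comp_hasDerivAt (0 : ℝ) (line_hd q u v)
  set θ' := fderiv ℝ ϑ q (u, v) with hθ'
  have e0 : ϑ (q.1 + (0 : ℝ) • u, q.2 + (0 : ℝ) • v) = ϑ q := by rw [line_zero]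
  have hb0 := (h.path_alT 0 q.1 u _ θ' h1).mul (comp_line q.2 v 0)
  have hb1 := (h.path_alT 1 q.1 u _ θ' h1).mul (comp_line q.2 v 1)
  have hsum := hb0.add hb1
  have hz : (fun s : ℝ => al T 0 (q.1 + s • u, ϑ (q.1 + s • u, q.2 + s • v)) * (q.2 + s • v) 0
      + al T 1 (q.1 + s • u, ϑ (q.1 + s • u, q.2 + s • v)) * (q.2 + s • v) 1)
      =ᶠ[𝓝 0] fun _ => (0 : ℝ) := by
    filter_upwards [line_mem L.opn hq u v] with s hs
    exact L.crit _ hs
  have h2 : HasDerivAt (fun s : ℝ => al T 0 (q.1 + s • u, ϑ (q.1 + s • u, q.2 + s • v))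
      * (q.2 + s • v) 0
      + al T 1 (q.1 + s • u, ϑ (q.1 + s • u, q.2 + s • v)) * (q.2 + s • v) 1) _ 0 := hsum
  have h3 := h2.unique ((hasDerivAt_const (0 : ℝ) (0 : ℝ)).congr_of_eventuallyEq hz)
  simp only [zero_smul, add_zero] at h3
  have hF := L.F_eq q hq
  have hc := L.crit q hq
  have hp := L.pos q hq
  refine h1.congr_deriv ?_
  rw [eq_div_iff hp.ne']
  unfold sv av
  linear_combination (-1) * h3 + f (T (q.1, ϑ q)) * θ' * hc + θ' * hF

/-- the derivative of `F` -/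
theorem Loc.Fd (h : Fam f Φ S T) (L : Loc S T F W ϑ) {q : VV} (hq : q ∈ W) (u v : V2) :
    HasDerivAt (fun s : ℝ => F (q.1 + s • u) (q.2 + s • v))
      (sv S u q.2 (q.1, ϑ q) + av S v (q.1, ϑ q)) 0 := by
  have h1 := L.thd h hq u v
  set θ' := (sv T u q.2 (q.1, ϑ q) + av T v (q.1, ϑ q)) / F q.1 q.2 with hθ'
  have e0 : ϑ (q.1 + (0 : ℝ) • u, q.2 + (0 : ℝ) • v) = ϑ q := by rw [line_zero]
  have hb0 := (h.path_alS 0 q.1 u _ θ' h1).mul (comp_line q.2 v 0)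
  have hb1 := (h.path_alS 1 q.1 u _ θ' h1).mul (comp_line q.2 v 1)
  have hsum := hb0.add hb1
  have hz : (fun s : ℝ => F (q.1 + s • u) (q.2 + s • v)) =ᶠ[𝓝 0]
      (fun s : ℝ => al S 0 (q.1 + s • u, ϑ (q.1 + s • u, q.2 + s • v)) * (q.2 + s • v) 0
      + al S 1 (q.1 + s • u, ϑ (q.1 + s • u, q.2 + s • v)) * (q.2 + s • v) 1) := by
    filter_upwards [line_mem L.opn hq u v] with s hs
    exact L.F_eq _ hs
  have h2 := (show HasDerivAt (fun s : ℝ => al S 0 (q.1 + s • u, ϑ (q.1 + s • u, q.2 + s • v))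
      * (q.2 + s • v) 0
      + al S 1 (q.1 + s • u, ϑ (q.1 + s • u, q.2 + s • v)) * (q.2 + s • v) 1) _ 0 from
      hsum).congr_of_eventuallyEq hz
  refine h2.congr_deriv ?_
  simp only [e0, zero_smul, add_zero]
  have hc := L.crit q hq
  unfold sv av
  linear_combination θ' * hc

/-- `K_w = 2 F ⟨α, w⟩` -/
def Kw (S : QT → ℝ) (F : V2 → V2 → ℝ) (ϑ : VV → ℝ) (w : V2) (q : VV) : ℝ :=
  2 * F q.1 q.2 * av S w (q.1, ϑ q)

theorem Loc.avd (h : Fam f Φ S T) (L : Loc S T F W ϑ) {q : VV} (hq : q ∈ W) (u v w : V2) :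
    HasDerivAt (fun s : ℝ => av S w (q.1 + s • u, ϑ (q.1 + s • u, q.2 + s • v)))
      (sv S u w (q.1, ϑ q) + av T w (q.1, ϑ q)
        * ((sv T u q.2 (q.1, ϑ q) + av T v (q.1, ϑ q)) / F q.1 q.2)) 0 := by
  have h1 := L.thd h hq u v
  set θ' := (sv T u q.2 (q.1, ϑ q) + av T v (q.1, ϑ q)) / F q.1 q.2 with hθ'
  have e0 : ϑ (q.1 + (0 : ℝ) • u, q.2 + (0 : ℝ) • v) = ϑ q := by rw [line_zero]
  have hb0 := (h.path_alS 0 q.1 u _ θ' h1).mul_const (w 0)
  have hb1 := (h.path_alS 1 q.1 u _ θ' h1).mul_const (w 1)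
  have hsum := hb0.add hb1
  refine (show HasDerivAt (fun s : ℝ => av S w (q.1 + s • u, ϑ (q.1 + s • u, q.2 + s • v))) _ 0
    from hsum).congr_deriv ?_
  simp only [e0]
  unfold sv av
  ring

theorem Loc.Kd (h : Fam f Φ S T) (L : Loc S T F W ϑ) {q : VV} (hq : q ∈ W) (u v w : V2) :
    HasDerivAt (fun s : ℝ => Kw S F ϑ w (q.1 + s • u, q.2 + s • v))
      (2 * (sv S u q.2 (q.1, ϑ q) + av S v (q.1, ϑ q)) * av S w (q.1, ϑ q)
        + 2 * F q.1 q.2 * sv S u w (q.1, ϑ q)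
        + 2 * av T w (q.1, ϑ q) * (sv T u q.2 (q.1, ϑ q) + av T v (q.1, ϑ q))) 0 := by
  have h1 := ((L.Fd h hq u v).const_mul 2).mul (L.avd h hq u v w)
  refine (show HasDerivAt (fun s : ℝ => Kw S F ϑ w (q.1 + s • u, q.2 + s • v)) _ 0
    from h1).congr_deriv ?_
  have e0 : ϑ (q.1 + (0 : ℝ) • u, q.2 + (0 : ℝ) • v) = ϑ q := by rw [line_zero]
  have hp := L.pos q hq
  simp only [e0, zero_smul, add_zero]
  field_simp
  ring

/-! ### smoothness -/

theorem Loc.P_smooth (L : Loc S T F W ϑ) : ContDiffOn ℝ ∞ (fun q : VV => ((q.1, ϑ q) : QT)) W :=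
  contDiff_fst.contDiffOn.prodMk L.smooth

theorem Loc.av_smooth (hS : ContDiff ℝ ∞ S) (L : Loc S T F W ϑ) (w : V2) :
    ContDiffOn ℝ ∞ (fun q : VV => av S w (q.1, ϑ q)) W := by
  unfold av
  exact (((al_smooth hS 0).comp_contDiffOn L.P_smooth).mul contDiffOn_const).add
    (((al_smooth hS 1).comp_contDiffOn L.P_smooth).mul contDiffOn_const)

theorem Loc.F_smooth (hS : ContDiff ℝ ∞ S) (L : Loc S T F W ϑ) :
    ContDiffOn ℝ ∞ (fun q : VV => F q.1 q.2) W := by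
  have h0 : ContDiff ℝ ∞ (fun q : VV => q.2 0) := by fun_prop
  have h1 : ContDiff ℝ ∞ (fun q : VV => q.2 1) := by fun_prop
  have h2 : ContDiffOn ℝ ∞ (fun q : VV => al S 0 (q.1, ϑ q) * q.2 0
      + al S 1 (q.1, ϑ q) * q.2 1) W :=
    (((al_smooth hS 0).comp_contDiffOn L.P_smooth).mul h0.contDiffOn).add
    (((al_smooth hS 1).comp_contDiffOn L.P_smooth).mul h1.contDiffOn)
  exact h2.congr L.F_eq

theorem Loc.K_smooth (hS : ContDiff ℝ ∞ S) (L : Loc S T F W ϑ) (w : V2) :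
    ContDiffOn ℝ ∞ (Kw S F ϑ w) W := by
  unfold Kw
  exact (contDiffOn_const.mul (L.F_smooth hS)).mul (L.av_smooth hS w)

/-- partial `y`-derivative from a line derivative -/
theorem fd_y {H : VV → ℝ} {q : VV} (hH : DifferentiableAt ℝ H q) (v : V2) (d : ℝ)
    (hd : HasDerivAt (fun s : ℝ => H (q.1 + s • (0 : V2), q.2 + s • v)) d 0) :
    fderiv ℝ (fun y => H (q.1, y)) q.2 v = d := by
  have h1 : HasFDerivAt (fun y : V2 => ((q.1, y) : VV))
      (ContinuousLinearMap.inr ℝ V2 V2) q.2 := hasFDerivAt_prodMk_right q.1 q.2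
  have hH' : HasFDerivAt H (fderiv ℝ H q) (q.1, q.2) := hH.hasFDerivAt
  have h2 := hH'.comp q.2 h1
  rw [show fderiv ℝ (fun y => H (q.1, y)) q.2 = _ from h2.fderiv]
  have hH'' : HasFDerivAt H (fderiv ℝ H q) (q.1 + (0 : ℝ) • (0 : V2), q.2 + (0 : ℝ) • v) := by
    rw [line_zero]; exact hH.hasFDerivAt
  have h3 := hH''.comp_hasDerivAt (0 : ℝ) (line_hd q 0 v)
  have h4 := h3.unique hd
  simpa using h4

/-- partial `x`-derivative from a line derivative -/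
theorem fd_x {H : VV → ℝ} {q : VV} (hH : DifferentiableAt ℝ H q) (u : V2) (d : ℝ)
    (hd : HasDerivAt (fun s : ℝ => H (q.1 + s • u, q.2 + s • (0 : V2))) d 0) :
    fderiv ℝ (fun z => H (z, q.2)) q.1 u = d := by
  have h1 : HasFDerivAt (fun z : V2 => ((z, q.2) : VV))
      (ContinuousLinearMap.inl ℝ V2 V2) q.1 := hasFDerivAt_prodMk_left q.1 q.2
  have hH' : HasFDerivAt H (fderiv ℝ H q) (q.1, q.2) := hH.hasFDerivAt
  have h2 := hH'.comp q.1 h1
  rw [show fderiv ℝ (fun z => H (z, q.2)) q.1 = _ from h2.fderiv]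
  have hH'' : HasFDerivAt H (fderiv ℝ H q) (q.1 + (0 : ℝ) • u, q.2 + (0 : ℝ) • (0 : V2)) := by
    rw [line_zero]; exact hH.hasFDerivAt
  have h3 := hH''.comp_hasDerivAt (0 : ℝ) (line_hd q u 0)
  have h4 := h3.unique hd
  simpa using h4

theorem sv_zero (S : QT → ℝ) (v : V2) (p : QT) : sv S 0 v p = 0 := by simp [sv]
theorem av_zero (S : QT → ℝ) (p : QT) : av S 0 p = 0 := by simp [av]

/-- first `y`-derivative of `F²` -/
theorem Loc.Fyd (h : Fam f Φ S T) (L : Loc S T F W ϑ) {q : VV} (hq : q ∈ W) (v : V2) :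
    fderiv ℝ (fun u => F q.1 u ^ 2) q.2 v = Kw S F ϑ v q := by
  have hdiff : DifferentiableAt ℝ (fun q : VV => F q.1 q.2 ^ 2) q :=
    (((L.F_smooth h.S_smooth).pow 2).contDiffAt (L.opn.mem_nhds hq)).differentiableAt (by simp)
  refine fd_y (H := fun q : VV => F q.1 q.2 ^ 2) hdiff v _ ?_
  have h1 := (L.Fd h hq 0 v).fun_pow 2
  refine h1.congr_deriv ?_
  simp only [zero_smul, add_zero, smul_zero, Nat.cast_ofNat, Nat.add_one_sub_one, pow_one,
    sv_zero, zero_add]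
  rfl

/-- first `x`-derivative of `F²` -/
theorem Loc.Fxd (h : Fam f Φ S T) (L : Loc S T F W ϑ) {q : VV} (hq : q ∈ W) (u : V2) :
    fderiv ℝ (fun z => F z q.2 ^ 2) q.1 u = 2 * F q.1 q.2 * sv S u q.2 (q.1, ϑ q) := by
  have hdiff : DifferentiableAt ℝ (fun q : VV => F q.1 q.2 ^ 2) q :=
    (((L.F_smooth h.S_smooth).pow 2).contDiffAt (L.opn.mem_nhds hq)).differentiableAt (by simp)
  refine fd_x (H := fun q : VV => F q.1 q.2 ^ 2) hdiff u _ ?_
  have h1 := (L.Fd h hq u 0).fun_pow 2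
  refine h1.congr_deriv ?_
  simp only [zero_smul, add_zero, smul_zero, Nat.cast_ofNat, Nat.add_one_sub_one, pow_one,
    av_zero]

/-- second `y`-derivative of `F²` -/
theorem Loc.Fyyd (h : Fam f Φ S T) (L : Loc S T F W ϑ) {q : VV} (hq : q ∈ W) (u v : V2) :
    fderiv ℝ (fun y => fderiv ℝ (fun u => F q.1 u ^ 2) y v) q.2 u
      = 2 * (av S u (q.1, ϑ q) * av S v (q.1, ϑ q) + av T u (q.1, ϑ q) * av T v (q.1, ϑ q)) := by
  have hev : (fun y => fderiv ℝ (fun u => F q.1 u ^ 2) y v) =ᶠ[𝓝 q.2]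
      fun y => Kw S F ϑ v (q.1, y) := by
    have hc : ContinuousAt (fun y : V2 => ((q.1, y) : VV)) q.2 := by fun_prop
    filter_upwards [hc.eventually_mem (L.opn.mem_nhds hq)] with y hy
    exact L.Fyd h hy v
  rw [hev.fderiv_eq]
  have hdiff : DifferentiableAt ℝ (Kw S F ϑ v) q :=
    ((L.K_smooth h.S_smooth v).contDiffAt (L.opn.mem_nhds hq)).differentiableAt (by simp)
  refine fd_y hdiff u _ ?_
  refine (L.Kd h hq 0 u v).congr_deriv ?_
  simp only [sv_zero]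
  ring

/-- mixed derivative of `F²` -/
theorem Loc.Fxyd (h : Fam f Φ S T) (L : Loc S T F W ϑ) {q : VV} (hq : q ∈ W) (u v : V2) :
    fderiv ℝ (fun z => fderiv ℝ (fun u => F z u ^ 2) q.2 v) q.1 u
      = 2 * sv S u q.2 (q.1, ϑ q) * av S v (q.1, ϑ q)
        + 2 * F q.1 q.2 * sv S u v (q.1, ϑ q)
        + 2 * av T v (q.1, ϑ q) * sv T u q.2 (q.1, ϑ q) := by
  have hev : (fun z => fderiv ℝ (fun u => F z u ^ 2) q.2 v) =ᶠ[𝓝 q.1]
      fun z => Kw S F ϑ v (z, q.2) := by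
    have hc : ContinuousAt (fun z : V2 => ((z, q.2) : VV)) q.1 := by fun_prop
    filter_upwards [hc.eventually_mem (L.opn.mem_nhds hq)] with z hz
    exact L.Fyd h hz v
  rw [hev.fderiv_eq]
  have hdiff : DifferentiableAt ℝ (Kw S F ϑ v) q :=
    ((L.K_smooth h.S_smooth v).contDiffAt (L.opn.mem_nhds hq)).differentiableAt (by simp)
  refine fd_x hdiff u _ ?_
  refine (L.Kd h hq u 0 v).congr_deriv ?_
  simp only [av_zero, add_zero]

end

end Pool.Agent.W668.Uni.Geo
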