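import Pool.Agent.W668.Uni.Geo3

/-!
# Landsberg unicorn: the spray and its third derivatives
-/

set_option autoImplicit false

open Set MeasureTheory
open scoped ContDiff Topology

namespace Pool.Agent.W668.Uni.Geo

noncomputable section

variable {f Φ : ℝ → ℝ} {S T : QT → ℝ} {F : V2 → V2 → ℝ} {W : Set VV} {ϑ : VV → ℝ}

theorem De_smooth (h : Fam f Φ S T) : ContDiff ℝ ∞ (De S T) := by
  unfold De
  exact ((al_smooth h.S_smooth 0).mul (al_smooth h.T_smooth 1)).sub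
    ((al_smooth h.S_smooth 1).mul (al_smooth h.T_smooth 0))

theorem Loc.comp_smooth (L : Loc S T F W ϑ) {g : QT → ℝ} (hg : ContDiff ℝ ∞ g) :
    ContDiffOn ℝ ∞ (fun q : VV => g (q.1, ϑ q)) W :=
  hg.comp_contDiffOn L.P_smooth

theorem Loc.Ga_smooth (h : Fam f Φ S T) (L : Loc S T F W ϑ)
    (hD : ∀ q ∈ W, De S T (q.1, ϑ q) ≠ 0) (i j k : Fin 2) :
    ContDiffOn ℝ ∞ (fun q : VV => Ga S T i j k (q.1, ϑ q)) W := by
  have hDs := L.comp_smooth (De_smooth h)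
  have he : ContDiffOn ℝ ∞ (fun q : VV => eV S T i (q.1, ϑ q)) W := by
    obtain rfl | rfl : i = 0 ∨ i = 1 := by fin_cases i <;> simp
    · simp only [eV0]
      exact (L.comp_smooth (al_smooth h.T_smooth 1)).div hDs hD
    · simp only [eV1]
      exact (L.comp_smooth (al_smooth h.T_smooth 0)).neg.div hDs hD
  have hf : ContDiffOn ℝ ∞ (fun q : VV => fV S T i (q.1, ϑ q)) W := by
    obtain rfl | rfl : i = 0 ∨ i = 1 := by fin_cases i <;> simp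
    · simp only [fV0]
      exact (L.comp_smooth (al_smooth h.S_smooth 1)).neg.div hDs hD
    · simp only [fV1]
      exact (L.comp_smooth (al_smooth h.S_smooth 0)).div hDs hD
  unfold Ga
  exact ((L.comp_smooth (si_smooth h.S_smooth j k)).mul he).add
    ((L.comp_smooth (si_smooth h.T_smooth j k)).mul hf)

/-- `μ_i = f'(T) f^i` -/
def mu (f : ℝ → ℝ) (S T : QT → ℝ) (i : Fin 2) (p : QT) : ℝ := deriv f (T p) * fV S T i p

/-- derivative of `Γ(P q)` in a `y` direction -/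
theorem Loc.Gad (h : Fam f Φ S T) (L : Loc S T F W ϑ) {q : VV} (hq : q ∈ W)
    (hD : De S T (q.1, ϑ q) ≠ 0) (i j k : Fin 2) (v : V2) :
    HasDerivAt (fun s : ℝ => Ga S T i j k (q.1 + s • (0 : V2),
        ϑ (q.1 + s • (0 : V2), q.2 + s • v)))
      (mu f S T i (q.1, ϑ q) * al T j (q.1, ϑ q) * al T k (q.1, ϑ q)
        * (av T v (q.1, ϑ q) / F q.1 q.2)) 0 := by
  have h1 := L.thd h hq 0 v
  have e0 : ϑ (q.1 + (0 : ℝ) • (0 : V2), q.2 + (0 : ℝ) • v) = ϑ q := by rw [line_zero]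
  have h2 := h.hd_Ga i j k q.1 (ϑ q) hD
  rw [← e0] at h2
  have h3 := h2.comp (0 : ℝ) h1
  rw [e0] at h3
  simp only [smul_zero, add_zero]
  simp only [smul_zero, add_zero] at h3
  refine (show HasDerivAt (fun s : ℝ => Ga S T i j k (q.1, ϑ (q.1, q.2 + s • v))) _ 0
    from h3).congr_deriv ?_
  rw [sv_zero, zero_add]
  unfold mu
  ring

/-- `½ Γ^i(y,y)` -/
def G1 (S T : QT → ℝ) (ϑ : VV → ℝ) (i : Fin 2) (q : VV) : ℝ :=
  1 / 2 * (Ga S T i 0 0 (q.1, ϑ q) * (q.2 0 * q.2 0) + Ga S T i 0 1 (q.1, ϑ q) * (q.2 0 * q.2 1)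
    + Ga S T i 1 0 (q.1, ϑ q) * (q.2 1 * q.2 0) + Ga S T i 1 1 (q.1, ϑ q) * (q.2 1 * q.2 1))

/-- `Γ^i(v,y)` -/
def G2 (S T : QT → ℝ) (ϑ : VV → ℝ) (i : Fin 2) (v : V2) (q : VV) : ℝ :=
  Ga S T i 0 0 (q.1, ϑ q) * (v 0 * q.2 0) + Ga S T i 0 1 (q.1, ϑ q) * (v 0 * q.2 1)
    + Ga S T i 1 0 (q.1, ϑ q) * (v 1 * q.2 0) + Ga S T i 1 1 (q.1, ϑ q) * (v 1 * q.2 1)

/-- `Γ^i(v,w)` -/
def G3 (S T : QT → ℝ) (ϑ : VV → ℝ) (i : Fin 2) (v w : V2) (q : VV) : ℝ :=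
  Ga S T i 0 0 (q.1, ϑ q) * (v 0 * w 0) + Ga S T i 0 1 (q.1, ϑ q) * (v 0 * w 1)
    + Ga S T i 1 0 (q.1, ϑ q) * (v 1 * w 0) + Ga S T i 1 1 (q.1, ϑ q) * (v 1 * w 1)

theorem coord_smooth (j : Fin 2) : ContDiff ℝ ∞ (fun q : VV => q.2 j) := by fun_prop

theorem Loc.G1_smooth (h : Fam f Φ S T) (L : Loc S T F W ϑ)
    (hD : ∀ q ∈ W, De S T (q.1, ϑ q) ≠ 0) (i : Fin 2) : ContDiffOn ℝ ∞ (G1 S T ϑ i) W := by
  unfold G1
  have hG := L.Ga_smooth h hD i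
  have hc := fun j => (coord_smooth j).contDiffOn (s := W)
  exact contDiffOn_const.mul (((((hG 0 0).mul ((hc 0).mul (hc 0))).add
    ((hG 0 1).mul ((hc 0).mul (hc 1)))).add ((hG 1 0).mul ((hc 1).mul (hc 0)))).add
    ((hG 1 1).mul ((hc 1).mul (hc 1))))

theorem Loc.G2_smooth (h : Fam f Φ S T) (L : Loc S T F W ϑ)
    (hD : ∀ q ∈ W, De S T (q.1, ϑ q) ≠ 0) (i : Fin 2) (v : V2) :
    ContDiffOn ℝ ∞ (G2 S T ϑ i v) W := by
  unfold G2
  have hG := L.Ga_smooth h hD i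
  have hc := fun j => (coord_smooth j).contDiffOn (s := W)
  exact (((((hG 0 0).mul (contDiffOn_const.mul (hc 0))).add
    ((hG 0 1).mul (contDiffOn_const.mul (hc 1)))).add
    ((hG 1 0).mul (contDiffOn_const.mul (hc 0)))).add
    ((hG 1 1).mul (contDiffOn_const.mul (hc 1))))

theorem Loc.G3_smooth (h : Fam f Φ S T) (L : Loc S T F W ϑ)
    (hD : ∀ q ∈ W, De S T (q.1, ϑ q) ≠ 0) (i : Fin 2) (v w : V2) :
    ContDiffOn ℝ ∞ (G3 S T ϑ i v w) W := by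
  unfold G3
  have hG := L.Ga_smooth h hD i
  exact (((((hG 0 0).mul contDiffOn_const).add ((hG 0 1).mul contDiffOn_const)).add
    ((hG 1 0).mul contDiffOn_const)).add ((hG 1 1).mul contDiffOn_const))

theorem Loc.G1d (h : Fam f Φ S T) (L : Loc S T F W ϑ) {q : VV} (hq : q ∈ W)
    (hD : De S T (q.1, ϑ q) ≠ 0) (i : Fin 2) (v : V2) :
    HasDerivAt (fun s : ℝ => G1 S T ϑ i (q.1 + s • (0 : V2), q.2 + s • v))
      (G2 S T ϑ i v q) 0 := by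
  have c0 := comp_line q.2 v 0
  have c1 := comp_line q.2 v 1
  have hG := fun j k => L.Gad h hq hD i j k v
  have h1 := (((((hG 0 0).mul (c0.mul c0)).add ((hG 0 1).mul (c0.mul c1))).add
    ((hG 1 0).mul (c1.mul c0))).add ((hG 1 1).mul (c1.mul c1))).const_mul (1 / 2)
  refine (show HasDerivAt (fun s : ℝ => G1 S T ϑ i (q.1 + s • (0 : V2), q.2 + s • v)) _ 0
    from h1).congr_deriv ?_
  have e0 : ϑ (q.1 + (0 : ℝ) • (0 : V2), q.2 + (0 : ℝ) • v) = ϑ q := by rw [line_zero]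
  simp only [smul_zero, zero_smul, add_zero, Pi.mul_apply]
  have hc := L.crit q hq
  have hs := h.Ga_symm i 1 0 (q.1, ϑ q)
  unfold G2
  rw [hs]
  linear_combination (1 / 2 * mu f S T i (q.1, ϑ q) * (av T v (q.1, ϑ q) / F q.1 q.2)
    * (al T 0 (q.1, ϑ q) * q.2 0 + al T 1 (q.1, ϑ q) * q.2 1)) * hc

theorem Loc.G2d (h : Fam f Φ S T) (L : Loc S T F W ϑ) {q : VV} (hq : q ∈ W)
    (hD : De S T (q.1, ϑ q) ≠ 0) (i : Fin 2) (v w : V2) :
    HasDerivAt (fun s : ℝ => G2 S T ϑ i v (q.1 + s • (0 : V2), q.2 + s • w))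
      (G3 S T ϑ i v w q) 0 := by
  have c0 := comp_line q.2 w 0
  have c1 := comp_line q.2 w 1
  have hG := fun j k => L.Gad h hq hD i j k w
  have h1 := (((((hG 0 0).mul (c0.const_mul (v 0))).add ((hG 0 1).mul (c1.const_mul (v 0)))).add
    ((hG 1 0).mul (c0.const_mul (v 1)))).add ((hG 1 1).mul (c1.const_mul (v 1))))
  refine (show HasDerivAt (fun s : ℝ => G2 S T ϑ i v (q.1 + s • (0 : V2), q.2 + s • w)) _ 0
    from h1).congr_deriv ?_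
  simp only [smul_zero, zero_smul, add_zero]
  have hc := L.crit q hq
  unfold G3
  linear_combination (mu f S T i (q.1, ϑ q) * (av T w (q.1, ϑ q) / F q.1 q.2)
    * (al T 0 (q.1, ϑ q) * v 0 + al T 1 (q.1, ϑ q) * v 1)) * hc

theorem Loc.G3d (h : Fam f Φ S T) (L : Loc S T F W ϑ) {q : VV} (hq : q ∈ W)
    (hD : De S T (q.1, ϑ q) ≠ 0) (i : Fin 2) (v w u : V2) :
    HasDerivAt (fun s : ℝ => G3 S T ϑ i v w (q.1 + s • (0 : V2), q.2 + s • u))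
      (mu f S T i (q.1, ϑ q) * av T v (q.1, ϑ q) * av T w (q.1, ϑ q) * av T u (q.1, ϑ q)
        / F q.1 q.2) 0 := by
  have hG := fun j k => L.Gad h hq hD i j k u
  have h1 := (((((hG 0 0).mul_const (v 0 * w 0)).add ((hG 0 1).mul_const (v 0 * w 1))).add
    ((hG 1 0).mul_const (v 1 * w 0))).add ((hG 1 1).mul_const (v 1 * w 1)))
  refine (show HasDerivAt (fun s : ℝ => G3 S T ϑ i v w (q.1 + s • (0 : V2), q.2 + s • u)) _ 0
    from h1).congr_deriv ?_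
  unfold av
  ring

variable {G : V2 → V2 → V2}

theorem slice_ev {q : VV} (hW : IsOpen W) (hq : q ∈ W) : ∀ᶠ y in 𝓝 q.2, ((q.1, y) : VV) ∈ W := by
  have hc : ContinuousAt (fun y : V2 => ((q.1, y) : VV)) q.2 := by fun_prop
  exact hc.eventually_mem (hW.mem_nhds hq)

theorem Loc.GF1 (h : Fam f Φ S T) (L : Loc S T F W ϑ) (hD : ∀ q ∈ W, De S T (q.1, ϑ q) ≠ 0)
    (hG : ∀ q ∈ W, ∀ i, G q.1 q.2 i = G1 S T ϑ i q) {q : VV} (hq : q ∈ W) (i : Fin 2) (v : V2) :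
    fderiv ℝ (fun u => G q.1 u i) q.2 v = G2 S T ϑ i v q := by
  have hev : (fun u => G q.1 u i) =ᶠ[𝓝 q.2] fun u => G1 S T ϑ i (q.1, u) := by
    filter_upwards [slice_ev L.opn hq] with y hy
    exact hG _ hy i
  rw [hev.fderiv_eq]
  exact fd_y (((L.G1_smooth h hD i).contDiffAt (L.opn.mem_nhds hq)).differentiableAt (by simp)) v _
    (L.G1d h hq (hD q hq) i v)

theorem Loc.GF2 (h : Fam f Φ S T) (L : Loc S T F W ϑ) (hD : ∀ q ∈ W, De S T (q.1, ϑ q) ≠ 0)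
    (hG : ∀ q ∈ W, ∀ i, G q.1 q.2 i = G1 S T ϑ i q) {q : VV} (hq : q ∈ W) (i : Fin 2)
    (v w : V2) :
    fderiv ℝ (fun w₁ => fderiv ℝ (fun u => G q.1 u i) w₁ v) q.2 w = G3 S T ϑ i v w q := by
  have hev : (fun w₁ => fderiv ℝ (fun u => G q.1 u i) w₁ v) =ᶠ[𝓝 q.2]
      fun u => G2 S T ϑ i v (q.1, u) := by
    filter_upwards [slice_ev L.opn hq] with y hy
    exact L.GF1 h hD hG hy i v
  rw [hev.fderiv_eq]
  exact fd_y (((L.G2_smooth h hD i v).contDiffAt (L.opn.mem_nhds hq)).differentiableAt (by simp))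
    w _ (L.G2d h hq (hD q hq) i v w)

theorem Loc.GF3 (h : Fam f Φ S T) (L : Loc S T F W ϑ) (hD : ∀ q ∈ W, De S T (q.1, ϑ q) ≠ 0)
    (hG : ∀ q ∈ W, ∀ i, G q.1 q.2 i = G1 S T ϑ i q) {q : VV} (hq : q ∈ W) (i : Fin 2)
    (v w u : V2) :
    fderiv ℝ (fun w₂ => fderiv ℝ (fun w₁ => fderiv ℝ (fun u => G q.1 u i) w₁ v) w₂ w) q.2 u
      = mu f S T i (q.1, ϑ q) * av T v (q.1, ϑ q) * av T w (q.1, ϑ q) * av T u (q.1, ϑ q)
        / F q.1 q.2 := by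
  have hev : (fun w₂ => fderiv ℝ (fun w₁ => fderiv ℝ (fun u => G q.1 u i) w₁ v) w₂ w) =ᶠ[𝓝 q.2]
      fun u => G3 S T ϑ i v w (q.1, u) := by
    filter_upwards [slice_ev L.opn hq] with y hy
    exact L.GF2 h hD hG hy i v w
  rw [hev.fderiv_eq]
  exact fd_y (((L.G3_smooth h hD i v w).contDiffAt (L.opn.mem_nhds hq)).differentiableAt
    (by simp)) u _ (L.G3d h hq (hD q hq) i v w u)

end

end Pool.Agent.W668.Uni.Geo
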