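import Pool.Agent.W668.Uni.Geo4

/-!
# Landsberg unicorn: final calculus, `P_per → P_theta2 → ` negation of the conjecture
-/

set_option autoImplicit false

open Set MeasureTheory
open scoped ContDiff Topology

namespace Pool.Agent.W668.Uni.Geo

noncomputable section

variable {f Φ : ℝ → ℝ} {S T : QT → ℝ} {F : V2 → V2 → ℝ} {W : Set VV} {ϑ : VV → ℝ}

theorem fam_of_per {L : ℝ} {U : Set V2} (hP : PerData f Φ L U S T) : Fam f Φ S T :=
  ⟨hP.f_smooth, hP.Φ_der, hP.S_smooth, hP.T_smooth, hP.S_der, hP.T_der⟩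

theorem De_zero {L : ℝ} {U : Set V2} (hP : PerData f Φ L U S T) (x : V2) :
    De S T (x, 0) = 1 := by
  have hS : ∀ u : V2, al S 0 (x, 0) * u 0 + al S 1 (x, 0) * u 1 = u 0 := by
    intro u
    have h1 := path_deriv hP.S_smooth x u (fun _ => (0 : ℝ)) 0 (hasDerivAt_const _ _)
    have h2 : HasDerivAt (fun s : ℝ => S (x + s • u, 0)) (u 0) 0 := by
      simp only [hP.S_zero]
      exact comp_line x u 0
    have h3 := h1.unique h2
    simpa [al] using h3
  have hT : ∀ u : V2, al T 0 (x, 0) * u 0 + al T 1 (x, 0) * u 1 = u 1 := by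
    intro u
    have h1 := path_deriv hP.T_smooth x u (fun _ => (0 : ℝ)) 0 (hasDerivAt_const _ _)
    have h2 : HasDerivAt (fun s : ℝ => T (x + s • u, 0)) (u 1) 0 := by
      simp only [hP.T_zero]
      exact comp_line x u 1
    have h3 := h1.unique h2
    simpa [al] using h3
  have a0 := hS (Pi.single 0 1)
  have a1 := hS (Pi.single 1 1)
  have b0 := hT (Pi.single 0 1)
  have b1 := hT (Pi.single 1 1)
  simp at a0 a1 b0 b1
  unfold De
  rw [a0, a1, b0, b1]
  norm_num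

theorem av_single (S : QT → ℝ) (j : Fin 2) (p : QT) : av S (Pi.single j 1) p = al S j p := by
  obtain rfl | rfl : j = 0 ∨ j = 1 := by fin_cases j <;> simp
  · simp [av]
  · simp [av]

theorem sv_single_left (S : QT → ℝ) (k : Fin 2) (y : V2) (p : QT) :
    sv S (Pi.single k 1) y p = si S k 0 p * y 0 + si S k 1 p * y 1 := by
  obtain rfl | rfl : k = 0 ∨ k = 1 := by fin_cases k <;> simp
  · simp [sv]
  · simp [sv]

theorem sv_single_both (S : QT → ℝ) (k l : Fin 2) (p : QT) :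
    sv S (Pi.single k 1) (Pi.single l 1) p = si S k l p := by
  rw [sv_single_left]
  obtain rfl | rfl : l = 0 ∨ l = 1 := by fin_cases l <;> simp
  · simp
  · simp

/-- the fundamental tensor, as in the frozen statement -/
def gF (F : V2 → V2 → ℝ) (x y : V2) (i l : Fin 2) : ℝ :=
  (1 / 2 : ℝ) * fderiv ℝ (fun w => fderiv ℝ (fun u => F x u ^ 2) w
    (Pi.single i (1 : ℝ) : Fin 2 → ℝ)) y (Pi.single l (1 : ℝ) : Fin 2 → ℝ)

/-- the right-hand side of the spray equation, as in the frozen statement -/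
def rF (F : V2 → V2 → ℝ) (x y : V2) (l : Fin 2) : ℝ :=
  (1 / 4 : ℝ) * ((∑ k : Fin 2,
      fderiv ℝ (fun z => fderiv ℝ (fun u => F z u ^ 2) y
        (Pi.single l (1 : ℝ) : Fin 2 → ℝ)) x (Pi.single k (1 : ℝ) : Fin 2 → ℝ) * y k)
    - fderiv ℝ (fun z => F z y ^ 2) x (Pi.single l (1 : ℝ) : Fin 2 → ℝ))

/-- the spray coefficients, by Cramer's rule -/
def GF (F : V2 → V2 → ℝ) (x y : V2) : V2 := fun i =>
  if i = 0 then (gF F x y 1 1 * rF F x y 0 - gF F x y 1 0 * rF F x y 1)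
      / (gF F x y 0 0 * gF F x y 1 1 - gF F x y 1 0 * gF F x y 0 1)
  else (gF F x y 0 0 * rF F x y 1 - gF F x y 0 1 * rF F x y 0)
      / (gF F x y 0 0 * gF F x y 1 1 - gF F x y 1 0 * gF F x y 0 1)

theorem Loc.gF_eq (h : Fam f Φ S T) (L : Loc S T F W ϑ) {q : VV} (hq : q ∈ W) (i l : Fin 2) :
    gF F q.1 q.2 i l = al S i (q.1, ϑ q) * al S l (q.1, ϑ q)
      + al T i (q.1, ϑ q) * al T l (q.1, ϑ q) := by
  unfold gF
  rw [L.Fyyd h hq]
  simp only [av_single]
  ring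

theorem Loc.rF_eq (h : Fam f Φ S T) (L : Loc S T F W ϑ) {q : VV} (hq : q ∈ W) (l : Fin 2) :
    rF F q.1 q.2 l = 1 / 2 * (sv S q.2 q.2 (q.1, ϑ q) * al S l (q.1, ϑ q)
      + sv T q.2 q.2 (q.1, ϑ q) * al T l (q.1, ϑ q)) := by
  unfold rF
  simp only [Fin.sum_univ_two, L.Fxyd h hq, L.Fxd h hq, av_single, sv_single_left,
    sv_single_both]
  have hs := si_symm h.S_smooth 1 0 (q.1, ϑ q)
  have ht := si_symm h.T_smooth 1 0 (q.1, ϑ q)
  unfold sv
  obtain rfl | rfl : l = 0 ∨ l = 1 := by fin_cases l <;> simp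
  · simp only [Pi.single_eq_same, Pi.single_eq_of_ne (one_ne_zero : (1 : Fin 2) ≠ 0), hs, ht]
    ring
  · simp only [Pi.single_eq_same, Pi.single_eq_of_ne (zero_ne_one : (0 : Fin 2) ≠ 1), hs, ht]
    ring

theorem Loc.GF_eq (h : Fam f Φ S T) (L : Loc S T F W ϑ) {q : VV} (hq : q ∈ W)
    (hD : De S T (q.1, ϑ q) ≠ 0) (i : Fin 2) : GF F q.1 q.2 i = G1 S T ϑ i q := by
  have hdet : gF F q.1 q.2 0 0 * gF F q.1 q.2 1 1 - gF F q.1 q.2 1 0 * gF F q.1 q.2 0 1
      = De S T (q.1, ϑ q) ^ 2 := by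
    rw [L.gF_eq h hq, L.gF_eq h hq, L.gF_eq h hq, L.gF_eq h hq]
    unfold De
    ring
  have hs := si_symm h.S_smooth 1 0 (q.1, ϑ q)
  have ht := si_symm h.T_smooth 1 0 (q.1, ϑ q)
  have hD2 : De S T (q.1, ϑ q) ^ 2 ≠ 0 := pow_ne_zero 2 hD
  obtain rfl | rfl : i = 0 ∨ i = 1 := by fin_cases i <;> simp
  · simp only [GF, if_true]
    rw [hdet, div_eq_iff hD2, L.gF_eq h hq, L.gF_eq h hq, L.rF_eq h hq, L.rF_eq h hq]
    simp only [G1, Ga, eV0, fV0]
    unfold sv
    field_simp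
    unfold De
    ring
  · simp only [GF, one_ne_zero, if_false]
    rw [hdet, div_eq_iff hD2, L.gF_eq h hq, L.gF_eq h hq, L.rF_eq h hq, L.rF_eq h hq]
    simp only [G1, Ga, eV1, fV1]
    unfold sv
    field_simp
    unfold De
    ring

/-- The negation of the Landsberg unicorn conjecture, from the periodic family and the
maximiser. -/
theorem unicorn (hper : P_per) (hth : P_theta2) :
    ¬ (∀ (n : ℕ) (U : Set (Fin n → ℝ)) (F : (Fin n → ℝ) → (Fin n → ℝ) → ℝ)
      (G : (Fin n → ℝ) → (Fin n → ℝ) → (Fin n → ℝ)),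
      IsOpen U →
      ContDiffOn ℝ ((⊤ : ℕ∞) : WithTop ℕ∞)
        (fun p : (Fin n → ℝ) × (Fin n → ℝ) => F p.1 p.2) (U ×ˢ {y | y ≠ 0}) →
      (∀ x ∈ U, ∀ y : Fin n → ℝ, y ≠ 0 → 0 < F x y) →
      (∀ x ∈ U, ∀ y : Fin n → ℝ, ∀ t : ℝ, 0 < t → F x (t • y) = t * F x y) →
      (∀ x ∈ U, ∀ y : Fin n → ℝ, y ≠ 0 → ∀ v : Fin n → ℝ, v ≠ 0 →
        0 < ∑ i : Fin n, ∑ j : Fin n,
          (1 / 2 : ℝ) * fderiv ℝ (fun w => fderiv ℝ (fun u => F x u ^ 2) w
              (Pi.single j (1 : ℝ) : Fin n → ℝ)) y (Pi.single i (1 : ℝ) : Fin n → ℝ)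
            * v i * v j) →
      (∀ x ∈ U, ∀ y : Fin n → ℝ, y ≠ 0 → ∀ l : Fin n,
        ∑ i : Fin n,
          (1 / 2 : ℝ) * fderiv ℝ (fun w => fderiv ℝ (fun u => F x u ^ 2) w
              (Pi.single i (1 : ℝ) : Fin n → ℝ)) y (Pi.single l (1 : ℝ) : Fin n → ℝ)
            * G x y i
        = (1 / 4 : ℝ) * ((∑ k : Fin n,
              fderiv ℝ (fun z => fderiv ℝ (fun u => F z u ^ 2) y
                (Pi.single l (1 : ℝ) : Fin n → ℝ)) x (Pi.single k (1 : ℝ) : Fin n → ℝ) * y k)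
            - fderiv ℝ (fun z => F z y ^ 2) x (Pi.single l (1 : ℝ) : Fin n → ℝ))) →
      (∀ x ∈ U, ∀ y : Fin n → ℝ, y ≠ 0 → ∀ j k l : Fin n,
        ∑ i : Fin n,
          ((1 / 2 : ℝ) * fderiv ℝ (fun u => F x u ^ 2) y (Pi.single i (1 : ℝ) : Fin n → ℝ))
          * fderiv ℝ (fun w₂ => fderiv ℝ (fun w₁ => fderiv ℝ (fun u => G x u i) w₁
                (Pi.single l (1 : ℝ) : Fin n → ℝ)) w₂ (Pi.single k (1 : ℝ) : Fin n → ℝ)) y
              (Pi.single j (1 : ℝ) : Fin n → ℝ) = 0) →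
      ∀ x ∈ U, ∀ y : Fin n → ℝ, y ≠ 0 → ∀ i j k l : Fin n,
        fderiv ℝ (fun w₂ => fderiv ℝ (fun w₁ => fderiv ℝ (fun u => G x u i) w₁
              (Pi.single l (1 : ℝ) : Fin n → ℝ)) w₂ (Pi.single k (1 : ℝ) : Fin n → ℝ)) y
            (Pi.single j (1 : ℝ) : Fin n → ℝ) = 0) := by
  intro hall
  obtain ⟨f, Φ, L, U, S, T, hP⟩ := hper
  have hF := fam_of_per hP
  have hDpos : ∀ p : QT, 0 < De S T p := fun p => hF.De_pos p.1 (De_zero hP p.1) p.2
  obtain ⟨⟨F, hom, hF2, hloc⟩, huniq⟩ := hth f Φ L U S T hP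
  have hLoc : ∀ x ∈ U, ∀ y : V2, y ≠ 0 → ∃ (W : Set VV) (ϑ : VV → ℝ),
      (x, y) ∈ W ∧ Loc S T F W ϑ ∧ ∀ q ∈ W, q.1 ∈ U := by
    intro x hx y hy
    obtain ⟨W, ϑ, hW, hm, hs, hq⟩ := hloc x hx y hy
    refine ⟨W, ϑ, hm, ⟨hW, hs, ?_, ?_, ?_⟩, fun q hqW => (hq q hqW).1⟩
    · intro q hqW
      rw [← dx_eq]
      exact (hq q hqW).2.1
    · intro q hqW
      rw [← dx_eq]
      exact (hq q hqW).2.2.1
    · intro q hqW
      exact (hq q hqW).2.2.2
  have h3 : ∀ x ∈ U, ∀ y : V2, y ≠ 0 → ∃ θ : ℝ, dx T x θ y = 0 ∧ 0 < dx S x θ y ∧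
      0 < F x y ∧
      (∀ v : V2, fderiv ℝ (fun u => F x u ^ 2) y v = 2 * F x y * av S v (x, θ)) ∧
      ∀ (i : Fin 2) (v w u : V2),
        fderiv ℝ (fun w₂ => fderiv ℝ (fun w₁ => fderiv ℝ (fun u => GF F x u i) w₁ v) w₂ w) y u
          = mu f S T i (x, θ) * av T v (x, θ) * av T w (x, θ) * av T u (x, θ) / F x y := by
    intro x hx y hy
    obtain ⟨W, ϑ, hm, Lc, hWU⟩ := hLoc x hx y hy
    have hD : ∀ q ∈ W, De S T (q.1, ϑ q) ≠ 0 := fun q _ => (hDpos _).ne'
    refine ⟨ϑ (x, y), ?_, ?_, Lc.pos _ hm, ?_, ?_⟩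
    · rw [dx_eq]
      exact Lc.crit _ hm
    · rw [dx_eq, ← Lc.F_eq _ hm]
      exact Lc.pos _ hm
    · intro v
      exact Lc.Fyd hF hm v
    · intro i v w u
      exact Lc.GF3 hF hD (G := GF F) (fun q hq i => Lc.GF_eq hF hq (hD q hq) i) hm i v w u
  have key := hall 2 U F (GF F) hP.U_open ?_ ?_ hom ?_ ?_ ?_
  · -- contradiction
    obtain ⟨x, hx, θ, hT0⟩ := hP.pt
    have hD := (hDpos (x, θ)).ne'
    obtain ⟨d1, d2, d3, d4⟩ := dual_rel (S := S) (T := T) (x, θ) hD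
    set y : V2 := fun i => eV S T i (x, θ) with hy
    have hb : dx T x θ y = 0 := by rw [dx_eq]; exact d3
    have ha : dx S x θ y = 1 := by rw [dx_eq]; exact d1
    have hy0 : y ≠ 0 := by
      intro h0
      rw [h0] at ha
      simp [dx] at ha
      have : ((0 : V2), (0 : ℝ)) = (0 : QT) := rfl
      rw [this, map_zero] at ha
      exact zero_ne_one ha
    obtain ⟨θ', hb', ha', hFp, -, h33⟩ := h3 x hx y hy0
    obtain ⟨n, hn⟩ := huniq x hx θ θ' y hb (by rw [ha]; exact one_pos) hb' ha'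
    -- periodicity of `T`
    have hTper1 : ∀ θ, T (x, θ + L) = T (x, θ) := by
      intro θ
      have e1 : HasDerivAt (fun s => S (x, s + L)) (T (x, θ + L)) θ := by
        have := (hP.S_der x (θ + L)).comp_add_const θ L
        exact this
      have e2 : (fun s => S (x, s + L)) = fun s => S (x, s) := funext fun s => hP.per x hx s
      rw [e2] at e1
      exact e1.unique (hP.S_der x θ)
    have hTper : T (x, θ') = 0 := by
      have hper : Function.Periodic (fun s => T (x, s)) L := hTper1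
      have := hper.int_mul n θ
      rw [hn]
      exact this.trans hT0
    have hfne : deriv f (T (x, θ')) ≠ 0 := by rw [hTper]; exact hP.f_der
    have hD' := (hDpos (x, θ')).ne'
    obtain ⟨c1, c2, c3, c4⟩ := dual_rel (S := S) (T := T) (x, θ') hD'
    have hz : ∀ i : Fin 2, al T i (x, θ') * fV S T i (x, θ') = 0 := by
      intro i
      have k1 := key x hx y hy0 i i i i
      rw [h33] at k1
      simp only [av_single] at k1
      rw [div_eq_zero_iff] at k1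
      rcases k1 with k1 | k1
      · unfold mu at k1
        simp only [mul_eq_zero] at k1
        rcases k1 with ((((k | k) | k) | k) | k)
        · exact absurd k hfne
        · rw [k, mul_zero]
        · rw [k, zero_mul]
        · rw [k, zero_mul]
        · rw [k, zero_mul]
      · exact absurd k1 hFp.ne'
    rw [hz 0, hz 1] at c4
    norm_num at c4
  · -- smoothness
    intro p hp
    obtain ⟨W, ϑ, hm, Lc, hWU⟩ := hLoc p.1 hp.1 p.2 hp.2
    exact ((Lc.F_smooth hF.S_smooth).contDiffAt (Lc.opn.mem_nhds hm)).contDiffWithinAt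
  · intro x hx y hy
    obtain ⟨θ, -, -, h, -⟩ := h3 x hx y hy
    exact h
  · intro x hx y hy v hv
    obtain ⟨W, ϑ, hm, Lc, hWU⟩ := hLoc x hx y hy
    have hg : ∀ i j : Fin 2, (1 / 2 : ℝ) * fderiv ℝ (fun w => fderiv ℝ (fun u => F x u ^ 2) w
        (Pi.single j (1 : ℝ) : Fin 2 → ℝ)) y (Pi.single i (1 : ℝ) : Fin 2 → ℝ)
        = al S j (x, ϑ (x, y)) * al S i (x, ϑ (x, y))
          + al T j (x, ϑ (x, y)) * al T i (x, ϑ (x, y)) :=
      fun i j => Lc.gF_eq hF hm j i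
    simp only [hg, Fin.sum_univ_two]
    have hsq : 0 < av S v (x, ϑ (x, y)) ^ 2 + av T v (x, ϑ (x, y)) ^ 2 := by
      by_contra hneg
      push Not at hneg
      have p1 : 0 ≤ av S v (x, ϑ (x, y)) ^ 2 := sq_nonneg _
      have p2 : 0 ≤ av T v (x, ϑ (x, y)) ^ 2 := sq_nonneg _
      have h1 : av S v (x, ϑ (x, y)) = 0 := by
        have : av S v (x, ϑ (x, y)) ^ 2 = 0 := by linarith
        exact pow_eq_zero_iff (two_ne_zero) |>.1 this
      have h2 : av T v (x, ϑ (x, y)) = 0 := by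
        have : av T v (x, ϑ (x, y)) ^ 2 = 0 := by linarith
        exact pow_eq_zero_iff (two_ne_zero) |>.1 this
      have hD := (hDpos (x, ϑ (x, y))).ne'
      unfold av at h1 h2
      have e0 : De S T (x, ϑ (x, y)) * v 0 = 0 := by
        unfold De
        linear_combination al T 1 (x, ϑ (x, y)) * h1 - al S 1 (x, ϑ (x, y)) * h2
      have e1 : De S T (x, ϑ (x, y)) * v 1 = 0 := by
        unfold De
        linear_combination al S 0 (x, ϑ (x, y)) * h2 - al T 0 (x, ϑ (x, y)) * h1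
      apply hv
      funext i
      obtain rfl | rfl : i = 0 ∨ i = 1 := by fin_cases i <;> simp
      · exact (mul_eq_zero.1 e0).resolve_left hD
      · exact (mul_eq_zero.1 e1).resolve_left hD
    have : (al S 0 (x, ϑ (x, y)) * al S 0 (x, ϑ (x, y))
          + al T 0 (x, ϑ (x, y)) * al T 0 (x, ϑ (x, y))) * v 0 * v 0
        + (al S 1 (x, ϑ (x, y)) * al S 0 (x, ϑ (x, y))
          + al T 1 (x, ϑ (x, y)) * al T 0 (x, ϑ (x, y))) * v 0 * v 1
        + ((al S 0 (x, ϑ (x, y)) * al S 1 (x, ϑ (x, y))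
          + al T 0 (x, ϑ (x, y)) * al T 1 (x, ϑ (x, y))) * v 1 * v 0
        + (al S 1 (x, ϑ (x, y)) * al S 1 (x, ϑ (x, y))
          + al T 1 (x, ϑ (x, y)) * al T 1 (x, ϑ (x, y))) * v 1 * v 1)
        = av S v (x, ϑ (x, y)) ^ 2 + av T v (x, ϑ (x, y)) ^ 2 := by
      unfold av
      ring
    rw [this]
    exact hsq
  · intro x hx y hy l
    obtain ⟨W, ϑ, hm, Lc, hWU⟩ := hLoc x hx y hy
    have hdet : gF F x y 0 0 * gF F x y 1 1 - gF F x y 1 0 * gF F x y 0 1 ≠ 0 := by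
      have e : gF F x y 0 0 * gF F x y 1 1 - gF F x y 1 0 * gF F x y 0 1
          = De S T (x, ϑ (x, y)) ^ 2 := by
        have := fun i l => Lc.gF_eq hF hm i l
        simp only at this
        rw [this, this, this, this]
        unfold De
        ring
      rw [e]
      exact pow_ne_zero 2 (hDpos _).ne'
    have goal : gF F x y 0 l * GF F x y 0 + gF F x y 1 l * GF F x y 1 = rF F x y l := by
      simp only [GF, if_true, one_ne_zero, if_false]
      obtain rfl | rfl : l = 0 ∨ l = 1 := by fin_cases l <;> simp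
      · rw [← mul_div_assoc, ← mul_div_assoc, ← add_div, div_eq_iff hdet]
        ring
      · rw [← mul_div_assoc, ← mul_div_assoc, ← add_div, div_eq_iff hdet]
        ring
    rw [Fin.sum_univ_two]
    exact goal
  · intro x hx y hy j k l
    obtain ⟨θ, hb, ha, hFp, hFy, h33⟩ := h3 x hx y hy
    have hD := (hDpos (x, θ)).ne'
    obtain ⟨c1, c2, c3, c4⟩ := dual_rel (S := S) (T := T) (x, θ) hD
    simp only [Fin.sum_univ_two, h33, hFy, av_single]
    unfold mu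
    have hne := hFp.ne'
    field_simp
    linear_combination (deriv f (T (x, θ)) * al T l (x, θ) * al T k (x, θ) * al T j (x, θ)) * c2

end

end Pool.Agent.W668.Uni.Geo
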