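import Mathlib

/-!
# Landsberg unicorn, UNI-LIFT: abstract derivative computations along curves
-/

set_option autoImplicit false
set_option maxSynthPendingDepth 3

open Set MeasureTheory Filter
open scoped ContDiff Topology

namespace Pool.Agent.W668.Uni.LiftAbs

noncomputable section

variable {V X : Type*} [NormedAddCommGroup V] [NormedSpace ℝ V] [NormedAddCommGroup X]
  [NormedSpace ℝ X]

/-- `s ↦ H(s) (g(s) - g(a))` has derivative `H(a) g'` if `H` is continuous at `a` -/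
theorem hasDerivAt_cont_mul {G W : Type*} [NormedAddCommGroup G] [NormedSpace ℝ G]
    [NormedAddCommGroup W] [NormedSpace ℝ W] {H : ℝ → G →L[ℝ] W} {g : ℝ → G} {g' : G} {a : ℝ}
    (hH : ContinuousAt H a) (hg : HasDerivAt g g' a) :
    HasDerivAt (fun s => H s (g s - g a)) (H a g') a := by
  rw [hasDerivAt_iff_tendsto_slope] at hg ⊢
  have h1 : Tendsto H (𝓝[≠] a) (𝓝 (H a)) := hH.tendsto.mono_left nhdsWithin_le_nhds
  have h2 : Tendsto (fun s => H s (slope g a s)) (𝓝[≠] a) (𝓝 (H a g')) := by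
    have hc : Continuous (fun p : (G →L[ℝ] W) × G => p.1 p.2) :=
      isBoundedBilinearMap_apply.continuous
    exact (hc.tendsto (H a, g')).comp (h1.prodMk_nhds hg)
  refine h2.congr fun s => ?_
  simp only [slope_def_module, sub_self, map_zero, sub_zero, map_smul]

variable {D : Set (ℝ × V)} {N : ℝ × V → X} {A : ℝ × V → (X →L[ℝ] X)} {z : V →L[ℝ] X}

/-- the hypotheses -/
structure Hyp (D : Set (ℝ × V)) (N : ℝ × V → X) (A : ℝ × V → (X →L[ℝ] X)) (z : V →L[ℝ] X) :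
    Prop where
  opn : IsOpen D
  smN : ContDiffOn ℝ ∞ N D
  smA : ContDiffOn ℝ ∞ A D
  der : ∀ p ∈ D, ∀ g : V, HasDerivAt (fun s : ℝ => N (p.1, p.2 + s • g)) (A p (z g)) 0

theorem Hyp.Nd (h : Hyp D N A z) {p : ℝ × V} (hp : p ∈ D) : DifferentiableAt ℝ N p :=
  (h.smN.contDiffAt (h.opn.mem_nhds hp)).differentiableAt (by simp)

theorem Hyp.Ad (h : Hyp D N A z) {p : ℝ × V} (hp : p ∈ D) : DifferentiableAt ℝ A p :=
  (h.smA.contDiffAt (h.opn.mem_nhds hp)).differentiableAt (by simp)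

theorem Hyp.smA' (h : Hyp D N A z) : ContDiffOn ℝ ∞ (fderiv ℝ A) D :=
  h.smA.fderiv_of_isOpen h.opn (by exact_mod_cast le_top)

theorem Hyp.smN' (h : Hyp D N A z) : ContDiffOn ℝ ∞ (fderiv ℝ N) D :=
  h.smN.fderiv_of_isOpen h.opn (by exact_mod_cast le_top)

theorem Hyp.A'd (h : Hyp D N A z) {p : ℝ × V} (hp : p ∈ D) : DifferentiableAt ℝ (fderiv ℝ A) p :=
  (h.smA'.contDiffAt (h.opn.mem_nhds hp)).differentiableAt (by simp)

theorem comp_curve {G W : Type*} [NormedAddCommGroup G] [NormedSpace ℝ G]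
    [NormedAddCommGroup W] [NormedSpace ℝ W] {B : G → W} {B' : G →L[ℝ] W} {c : ℝ → G} {c' : G}
    {a : ℝ} (hB : HasFDerivAt B B' (c a)) (hc : HasDerivAt c c' a) :
    HasDerivAt (fun s => B (c s)) (B' c') a := hB.comp_hasDerivAt a hc

theorem comp_fd {G H W : Type*} [NormedAddCommGroup G] [NormedSpace ℝ G]
    [NormedAddCommGroup H] [NormedSpace ℝ H]
    [NormedAddCommGroup W] [NormedSpace ℝ W] {B : G → W} {B' : G →L[ℝ] W} {c : H → G}
    {c' : H →L[ℝ] G} {a : H} (hB : HasFDerivAt B B' (c a)) (hc : HasFDerivAt c c' a) :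
    HasFDerivAt (fun s => B (c s)) (B'.comp c') a := hB.comp a hc

theorem Hyp.N'd (h : Hyp D N A z) {p : ℝ × V} (hp : p ∈ D) : DifferentiableAt ℝ (fderiv ℝ N) p :=
  (h.smN'.contDiffAt (h.opn.mem_nhds hp)).differentiableAt (by simp)

/-- the derivative of `N` in a direction of `V` -/
theorem Hyp.N' (h : Hyp D N A z) {p : ℝ × V} (hp : p ∈ D) (g : V) :
    fderiv ℝ N p (0, g) = A p (z g) := by
  have h1 : HasDerivAt (fun s : ℝ => ((p.1, p.2 + s • g) : ℝ × V)) (0, g) 0 := by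
    have := ((hasDerivAt_id (0 : ℝ)).smul_const g).const_add p.2
    have h2 : HasDerivAt (fun s : ℝ => p.2 + s • g) g 0 := by simpa using this
    exact (hasDerivAt_const (0 : ℝ) p.1).prodMk h2
  have e : ((p.1, p.2 + (0 : ℝ) • g) : ℝ × V) = p := by simp
  have h3 : HasFDerivAt N (fderiv ℝ N p) (p.1, p.2 + (0 : ℝ) • g) := by
    rw [e]; exact (h.Nd hp).hasFDerivAt
  have h4 := h3.comp_hasDerivAt (0 : ℝ) h1
  exact h4.unique (h.der p hp g)

/-- symmetry of `(h, g) ↦ A'(p)(0,h) (z g)` -/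
theorem Hyp.symm (h : Hyp D N A z) {p : ℝ × V} (hp : p ∈ D) (u g : V) :
    fderiv ℝ A p (0, u) (z g) = fderiv ℝ A p (0, g) (z u) := by
  have key : ∀ u g : V, fderiv ℝ (fderiv ℝ N) p (0, u) (0, g) = fderiv ℝ A p (0, u) (z g) := by
    intro u g
    have h1 : HasFDerivAt (fun q => fderiv ℝ N q ((0 : ℝ), g))
        ((fderiv ℝ (fderiv ℝ N) p).flip ((0 : ℝ), g)) p := by
      have h2 := (h.N'd hp).hasFDerivAt.clm_apply (hasFDerivAt_const ((0 : ℝ), g) p)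
      have e : fderiv ℝ N p ∘SL (0 : ℝ × V →L[ℝ] ℝ × V)
          + (fderiv ℝ (fderiv ℝ N) p).flip ((0 : ℝ), g)
          = (fderiv ℝ (fderiv ℝ N) p).flip ((0 : ℝ), g) := by simp
      rw [e] at h2
      exact h2
    have h3 : HasFDerivAt (fun q => A q (z g)) ((fderiv ℝ A p).flip (z g)) p := by
      have h2 := (h.Ad hp).hasFDerivAt.clm_apply (hasFDerivAt_const (z g) p)
      have e : A p ∘SL (0 : ℝ × V →L[ℝ] X) + (fderiv ℝ A p).flip (z g)
          = (fderiv ℝ A p).flip (z g) := by simp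
      rw [e] at h2
      exact h2
    have hev : (fun q => fderiv ℝ N q ((0 : ℝ), g)) =ᶠ[𝓝 p] fun q => A q (z g) := by
      filter_upwards [h.opn.mem_nhds hp] with q hq
      exact h.N' hq g
    have h4 := h1.unique (h3.congr_of_eventuallyEq hev)
    exact congrArg (fun L : ℝ × V →L[ℝ] X => L (0, u)) h4
  have hs : IsSymmSndFDerivAt ℝ N p :=
    (h.smN.contDiffAt (h.opn.mem_nhds hp)).isSymmSndFDerivAt (by
      rw [minSmoothness_of_isRCLikeNormedField]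
      exact WithTop.coe_le_coe.2 (le_top : (2 : ℕ∞) ≤ ⊤))
  rw [← key u g, ← key g u]
  exact hs.eq _ _

variable {ε a : ℝ} {v p : ℝ → V} {x1 x2 x3 : ℝ → X}

theorem Hyp.curve_pt (hv : HasDerivAt v (-(p a)) a) :
    HasDerivAt (fun s => ((ε, v s) : ℝ × V)) (0, -(p a)) a :=
  (hasDerivAt_const a ε).prodMk hv

theorem Hyp.claim0 (h : Hyp D N A z) (hD : (ε, v a) ∈ D) (hv : HasDerivAt v (-(p a)) a) :
    HasDerivAt (fun s => N (ε, v s)) (-(A (ε, v a) (z (p a)))) a := by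
  have h1 := (h.Nd hD).hasFDerivAt.comp_hasDerivAt a (Hyp.curve_pt (ε := ε) hv)
  have h2 : fderiv ℝ N (ε, v a) (0, -(p a)) = -(A (ε, v a) (z (p a))) := by
    rw [h.N' hD, map_neg, map_neg]
  rw [h2] at h1
  exact h1

theorem Hyp.claim1 (h : Hyp D N A z) (hD : (ε, v a) ∈ D) (hv : HasDerivAt v (-(p a)) a)
    {y1 : ℝ → X} {y2 : X} (hy : HasDerivAt y1 (-y2) a) :
    HasDerivAt (fun s => A (ε, v s) (y1 s))
      (-(A (ε, v a) y2 + fderiv ℝ A (ε, v a) (0, p a) (y1 a))) a := by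
  have h1 := (h.Ad hD).hasFDerivAt.comp_hasDerivAt a (Hyp.curve_pt (ε := ε) hv)
  have h2 := h1.clm_apply hy
  refine (show HasDerivAt (fun s => A (ε, v s) (y1 s)) _ a from h2).congr_deriv ?_
  have e : ((0 : ℝ), -(p a)) = -((0 : ℝ), p a) := by simp
  rw [e, map_neg]
  simp only [Function.comp_apply, map_neg]
  rw [neg_apply]
  abel

theorem Hyp.claim2 (h : Hyp D N A z) (hD : (ε, v a) ∈ D) (hv : HasDerivAt v (-(p a)) a)
    (hp : ContinuousAt p a) (h1 : ∀ s, z (p s) = x1 s) (hx1 : HasDerivAt x1 (-(x2 a)) a)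
    (hx2 : HasDerivAt x2 (-(x3 a)) a) :
    HasDerivAt (fun s => A (ε, v s) (x2 s) + fderiv ℝ A (ε, v s) (0, p s) (x1 s))
      (-(A (ε, v a) (x3 a) + (3 : ℝ) • fderiv ℝ A (ε, v a) (0, p a) (x2 a)
        + fderiv ℝ (fderiv ℝ A) (ε, v a) (0, p a) (0, p a) (x1 a))) a := by
  have c1 := h.claim1 hD hv hx2
  -- the first part of the difference
  set G : ℝ → (ℝ × V →L[ℝ] (X →L[ℝ] X)) := fun s => fderiv ℝ A (ε, v s) with hG
  have hGd : HasDerivAt G (fderiv ℝ (fderiv ℝ A) (ε, v a) (0, -(p a))) a :=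
    comp_curve (B := fderiv ℝ A) (c := fun s => ((ε, v s) : ℝ × V)) (h.A'd hD).hasFDerivAt
      (Hyp.curve_pt (ε := ε) hv)
  -- evaluation functional
  let H1 : ℝ → ((ℝ × V →L[ℝ] (X →L[ℝ] X)) →L[ℝ] X) := fun s =>
    (ContinuousLinearMap.apply ℝ X (x1 s)).comp
      (ContinuousLinearMap.apply ℝ (X →L[ℝ] X) ((0 : ℝ), p s))
  have hH1 : ContinuousAt H1 a := by
    have e1 : ContinuousAt (fun s => ContinuousLinearMap.apply ℝ X (x1 s)) a :=
      ((ContinuousLinearMap.apply ℝ X).continuous.continuousAt).comp hx1.continuousAt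
    have e2 : ContinuousAt (fun s => ContinuousLinearMap.apply ℝ (X →L[ℝ] X)
        (((0 : ℝ), p s) : ℝ × V)) a :=
      ((ContinuousLinearMap.apply ℝ (X →L[ℝ] X)).continuous.continuousAt).comp
        (continuousAt_const.prodMk hp)
    exact e1.clm_comp e2
  have c2 := hasDerivAt_cont_mul hH1 hGd
  -- the second part
  let H2 : ℝ → (X →L[ℝ] X) := fun s => fderiv ℝ A (ε, v a) (0, p s + p a)
  have hH2 : ContinuousAt H2 a :=
    (fderiv ℝ A (ε, v a)).continuous.continuousAt.comp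
      (continuousAt_const.prodMk (hp.add continuousAt_const))
  have c3 := hasDerivAt_cont_mul hH2 hx1
  have hsum := (c2.add c3).add_const (fderiv ℝ A (ε, v a) (0, p a) (x1 a))
  have e : ∀ s, fderiv ℝ A (ε, v s) (0, p s) (x1 s)
      = H1 s (G s - G a) + H2 s (x1 s - x1 a) + fderiv ℝ A (ε, v a) (0, p a) (x1 a) := by
    intro s
    have f1 : H1 s (G s - G a) = fderiv ℝ A (ε, v s) (0, p s) (x1 s)
        - fderiv ℝ A (ε, v a) (0, p s) (x1 s) := rfl
    have f2 : ((0 : ℝ), p s + p a) = ((0 : ℝ), p s) + ((0 : ℝ), p a) := by simp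
    have f3 : H2 s (x1 s - x1 a) = fderiv ℝ A (ε, v a) (0, p s) (x1 s)
        + fderiv ℝ A (ε, v a) (0, p a) (x1 s) - (fderiv ℝ A (ε, v a) (0, p s) (x1 a)
        + fderiv ℝ A (ε, v a) (0, p a) (x1 a)) := by
      show fderiv ℝ A (ε, v a) (0, p s + p a) (x1 s - x1 a) = _
      rw [f2, map_add, map_sub]
      rfl
    have f4 : fderiv ℝ A (ε, v a) (0, p s) (x1 a) = fderiv ℝ A (ε, v a) (0, p a) (x1 s) := by
      rw [← h1 a, ← h1 s]
      exact h.symm hD _ _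
    rw [f1, f3, f4]
    abel
  have c4 : HasDerivAt (fun s => fderiv ℝ A (ε, v s) (0, p s) (x1 s)) _ a :=
    hsum.congr_of_eventuallyEq (Eventually.of_forall fun s => e s)
  refine (c1.add c4).congr_deriv ?_
  have g1 : H1 a (fderiv ℝ (fderiv ℝ A) (ε, v a) (0, -(p a)))
      = -(fderiv ℝ (fderiv ℝ A) (ε, v a) (0, p a) (0, p a) (x1 a)) := by
    show (fderiv ℝ (fderiv ℝ A) (ε, v a) (0, -(p a)) (0, p a)) (x1 a) = _
    have e0 : ((0 : ℝ), -(p a)) = -((0 : ℝ), p a) := by simp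
    rw [e0, map_neg]
    rfl
  have g2 : H2 a (-(x2 a)) = -((2 : ℝ) • fderiv ℝ A (ε, v a) (0, p a) (x2 a)) := by
    show fderiv ℝ A (ε, v a) (0, p a + p a) (-(x2 a)) = _
    have e0 : ((0 : ℝ), p a + p a) = (2 : ℝ) • ((0 : ℝ), p a) := by
      rw [two_smul]; simp
    rw [e0, map_smul, map_neg]
    rfl
  rw [g1, g2]
  module

/-! ### equivariance of the derivatives -/

variable {τV : V →L[ℝ] V} {τ : X →L[ℝ] X}

theorem Hyp.eqv1 (h : Hyp D N A z) (hτ : ∀ p ∈ D, (p.1, τV p.2) ∈ D)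
    (he : ∀ p ∈ D, ∀ g, A (p.1, τV p.2) (τ g) = τ (A p g)) {p : ℝ × V} (hp : p ∈ D) (u : V)
    (g : X) : fderiv ℝ A (p.1, τV p.2) (0, τV u) (τ g) = τ (fderiv ℝ A p (0, u) g) := by
  let Tm : ℝ × V →L[ℝ] ℝ × V := (ContinuousLinearMap.id ℝ ℝ).prodMap τV
  have hTm : ∀ q : ℝ × V, Tm q = (q.1, τV q.2) := fun q => rfl
  have h1 : HasFDerivAt (fun q => A (Tm q) (τ g))
      (((fderiv ℝ A (Tm p)).comp Tm).flip (τ g)) p := by
    have h2 : HasFDerivAt (fun q => A (Tm q)) ((fderiv ℝ A (Tm p)).comp Tm) p :=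
      (h.Ad (hτ p hp)).hasFDerivAt.comp p Tm.hasFDerivAt
    have h3 := h2.clm_apply (hasFDerivAt_const (τ g) p)
    have e : A (Tm p) ∘SL (0 : ℝ × V →L[ℝ] X) + ((fderiv ℝ A (Tm p)).comp Tm).flip (τ g)
        = ((fderiv ℝ A (Tm p)).comp Tm).flip (τ g) := by simp
    rw [e] at h3
    exact h3
  have h4 : HasFDerivAt (fun q => τ (A q g)) (τ.comp ((fderiv ℝ A p).flip g)) p := by
    have h3 := (h.Ad hp).hasFDerivAt.clm_apply (hasFDerivAt_const g p)
    have e : A p ∘SL (0 : ℝ × V →L[ℝ] X) + (fderiv ℝ A p).flip g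
        = (fderiv ℝ A p).flip g := by simp
    rw [e] at h3
    exact τ.hasFDerivAt.comp p h3
  have hev : (fun q => A (Tm q) (τ g)) =ᶠ[𝓝 p] fun q => τ (A q g) := by
    filter_upwards [h.opn.mem_nhds hp] with q hq
    exact he q hq g
  have h5 := h1.unique (h4.congr_of_eventuallyEq hev)
  exact congrArg (fun L : ℝ × V →L[ℝ] X => L (0, u)) h5

theorem Hyp.eqv2 (h : Hyp D N A z) (hτ : ∀ p ∈ D, (p.1, τV p.2) ∈ D)
    (he : ∀ p ∈ D, ∀ g, A (p.1, τV p.2) (τ g) = τ (A p g)) {p : ℝ × V} (hp : p ∈ D) (u w : V)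
    (g : X) : fderiv ℝ (fderiv ℝ A) (p.1, τV p.2) (0, τV u) (0, τV w) (τ g)
      = τ (fderiv ℝ (fderiv ℝ A) p (0, u) (0, w) g) := by
  let Tm : ℝ × V →L[ℝ] ℝ × V := (ContinuousLinearMap.id ℝ ℝ).prodMap τV
  let ev1 : (ℝ × V →L[ℝ] (X →L[ℝ] X)) →L[ℝ] X :=
    (ContinuousLinearMap.apply ℝ X (τ g)).comp
      (ContinuousLinearMap.apply ℝ (X →L[ℝ] X) ((0 : ℝ), τV w))
  let ev2 : (ℝ × V →L[ℝ] (X →L[ℝ] X)) →L[ℝ] X :=
    (ContinuousLinearMap.apply ℝ X g).comp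
      (ContinuousLinearMap.apply ℝ (X →L[ℝ] X) ((0 : ℝ), w))
  have h1 : HasFDerivAt (fun q => ev1 (fderiv ℝ A (Tm q)))
      (ev1.comp ((fderiv ℝ (fderiv ℝ A) (Tm p)).comp Tm)) p := by
    have h2 : HasFDerivAt (fun q => fderiv ℝ A (Tm q)) ((fderiv ℝ (fderiv ℝ A) (Tm p)).comp Tm) p :=
      comp_fd (B := fderiv ℝ A) (c := fun q => Tm q) (h.A'd (hτ p hp)).hasFDerivAt Tm.hasFDerivAt
    exact comp_fd (B := fun L => ev1 L) ev1.hasFDerivAt h2
  have h4 : HasFDerivAt (fun q => τ (ev2 (fderiv ℝ A q)))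
      (τ.comp (ev2.comp (fderiv ℝ (fderiv ℝ A) p))) p := by
    have h3 : HasFDerivAt (fun q => ev2 (fderiv ℝ A q)) (ev2.comp (fderiv ℝ (fderiv ℝ A) p)) p :=
      comp_fd (B := fun L => ev2 L) (c := fun q => fderiv ℝ A q) ev2.hasFDerivAt
        (h.A'd hp).hasFDerivAt
    exact comp_fd (B := fun L => τ L) τ.hasFDerivAt h3
  have hev : (fun q => ev1 (fderiv ℝ A (Tm q))) =ᶠ[𝓝 p] fun q => τ (ev2 (fderiv ℝ A q)) := by
    filter_upwards [h.opn.mem_nhds hp] with q hq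
    exact h.eqv1 hτ he hq w g
  have h5 := h1.unique (h4.congr_of_eventuallyEq hev)
  exact congrArg (fun L : ℝ × V →L[ℝ] X => L (0, u)) h5

end

end Pool.Agent.W668.Uni.LiftAbs
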