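import Pool.Agent.W668.Uni.Defs

/-!
# Landsberg unicorn (S13672): the statements of the subtasks (UNI-*)
-/

set_option autoImplicit false

open Set MeasureTheory
open scoped ContDiff Topology

namespace Pool.Agent.W668.Uni

noncomputable section

/-- the domain `{|ε| < e₀, ‖u_0‖ < M}` in `ℝ × E k` -/
def domE (k : ℕ) (e₀ M : ℝ) : Set (ℝ × E k) := {p | |p.1| < e₀ ∧ ‖z0 p.2‖ < M}

/-! ### Analytic part -/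

/-- UNI-OPS -/
def P_ops : Prop := Nonempty Ops ∧ Nonempty EMaps

/-- UNI-ETA -/
def P_eta : Prop := ∀ (O : Ops) (M : ℝ), 0 < M → ∃ (e₀ : ℝ) (η : ℝ × Y → Y), EtaSol O M e₀ η

/-- UNI-SMO: smoothness and equivariance of `κ_E`, `κ̂` -/
def P_smo : Prop := ∀ (O : Ops) (M e₀ : ℝ) (η : ℝ × Y → Y), EtaSol O M e₀ η →
  ContDiffOn ℝ ∞ (kE η) (dom e₀ M) ∧ ContDiffOn ℝ ∞ (kH O η) (dom e₀ M) ∧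
  ∀ p ∈ dom e₀ M, ∀ a : ℝ, η (p.1, τY a p.2) = τY a (η p) ∧
    kE η (p.1, τY a p.2) = τY a (kE η p) ∧ kH O η (p.1, τY a p.2) = τY a (kH O η p)

/-- UNI-DER: the derivative of the period map in the direction `G` is `W (G κ̂)` -/
def P_der : Prop := ∀ (O : Ops) (M e₀ : ℝ) (η : ℝ × Y → Y), EtaSol O M e₀ η →
  ∀ p ∈ dom e₀ M, ∀ G : Y,
    HasDerivAt (fun s : ℝ => That O η (p.1, p.2 + s • G)) (O.W (G * kH O η p)) 0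

/-- UNI-KHAT -/
def P_khat : Prop := ∀ (O : Ops) (_ : EMaps) (M e₀ : ℝ) (η : ℝ × Y → Y), EtaSol O M e₀ η →
  ∃ jE jH : ℝ × E 2 → (Fin 4 → Y),
    ContDiffOn ℝ ∞ jE (domE 2 e₀ M) ∧ ContDiffOn ℝ ∞ jH (domE 2 e₀ M) ∧
    ∀ p ∈ domE 2 e₀ M,
      JetOK (jE p) ∧ jE p 0 = kE η (p.1, O.lift (z0 p.2)) ∧
      JetOK (jH p) ∧ jH p 0 = kH O η (p.1, O.lift (z0 p.2))

/-- `σ(t,ψ) = √(t² cos² ψ + sin² ψ)` -/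
def sig (t ψ : ℝ) : ℝ := Real.sqrt (t ^ 2 * Real.cos ψ ^ 2 + Real.sin ψ ^ 2)

/-- `β(t,ψ) = arccos (t/σ)` -/
def bet (t ψ : ℝ) : ℝ := Real.arccos (t / sig t ψ)

/-- the kernel `M(k; z, t)` of the Abel inverse -/
def Mker (k : Fin 4 → Y) (z t : ℝ) : ℝ :=
  ∫ ψ in (0 : ℝ)..(Real.pi / 2), Real.sin ψ ^ 2 *
    (3 * evY (k 1) (z * sig t ψ) (bet t ψ)
      + Real.sin ψ ^ 2 / sig t ψ ^ 2 * evY (k 2) (z * sig t ψ) (bet t ψ)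
      + Real.sin ψ / (sig t ψ * Real.sqrt (1 - t ^ 2)) *
          evY (k 3) (z * sig t ψ) (bet t ψ))

/-- `𝒜` is the Abel inverse operator -/
def IsA (A : (Fin 4 → Y) →L[ℝ] X →L[ℝ] X) : Prop := ∀ (k : Fin 4 → Y) (g : X) (z : ℝ),
  0 ≤ z → z ≤ 1 → evX (A k g) z = 1 / 4 * evY (k 0) z 0 * evX g z
    + 1 / (2 * Real.pi) * ∫ t in (0 : ℝ)..1, evX g (z * t) * Mker k z t

/-- UNI-A1 -/
def P_A1 : Prop := ∃ A : (Fin 4 → Y) →L[ℝ] X →L[ℝ] X, IsA A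

/-- UNI-SPH: change of the polar axis on the octant of the sphere -/
def P_sph : Prop := ∀ H : ℝ → ℝ → ℝ, Continuous (fun p : ℝ × ℝ => H p.1 p.2) →
  (∫ φ in (0 : ℝ)..(Real.pi / 2), ∫ t in (0 : ℝ)..(Real.pi / 2), H φ t * Real.sin φ)
    = ∫ t in (0 : ℝ)..1, ∫ ψ in (0 : ℝ)..(Real.pi / 2),
        H (Real.arcsin (sig t ψ)) (bet t ψ)

/-- UNI-INJ -/
def P_inj : Prop := ∀ O : Ops, (∀ g : X, O.Q g = 0 → g = 0) ∧ (∀ g : X, O.P g = 0 → g = 0) ∧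
  (∀ (g : X) (x : ℝ), 0 ≤ x → x ≤ 1 → evX (O.Q (O.P g)) x
    = 2 * Real.pi * ∫ s in (0 : ℝ)..1, (s ^ 2 - s ^ 3) * evX g (x * s))

/-- UNI-PATH -/
def P_path : Prop := ∀ (A : (Fin 4 → Y) →L[ℝ] X →L[ℝ] X), IsA A → ∀ (k : Fin 4 → Y),
  JetOK k → ∀ (g : X) (x : ℝ), 0 ≤ x → x ≤ 1 →
    2 * Real.pi * (∫ s in (0 : ℝ)..1, (s ^ 2 - s ^ 3) * evX (A k g) (x * s))
      = ∫ r in (0 : ℝ)..1, evX g (x * r) * ((1 - r ^ 2) *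
          ∫ ψ in (0 : ℝ)..(Real.pi / 2), Real.sin ψ ^ 2 *
            evY (k 0) (x * sig r ψ) (bet r ψ))

/-- UNI-ABEL (from `P_A1`, `P_sph`, `P_inj`, `P_path`) -/
def P_abel : Prop := ∀ O : Ops, ∃ A : (Fin 4 → Y) →L[ℝ] X →L[ℝ] X,
  ∀ k : Fin 4 → Y, JetOK k → ∀ g : X, O.P (A k g) = O.W (k 0 * O.lift g)

/-- UNI-LIFT -/
def P_lift : Prop := ∀ (EM : EMaps) (e₀ M : ℝ) (N : ℝ × E 2 → X)
  (A : ℝ × E 2 → (X →L[ℝ] X)),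
  ContDiffOn ℝ ∞ N (domE 2 e₀ M) → ContDiffOn ℝ ∞ A (domE 2 e₀ M) →
  (∀ p ∈ domE 2 e₀ M, ∀ g : E 2,
    HasDerivAt (fun s : ℝ => N (p.1, p.2 + s • g)) (A p (z0 g)) 0) →
  (∀ p ∈ domE 2 e₀ M, ∀ a : ℝ, 0 ≤ a → N (p.1, EM.τE 2 a p.2) = τX a (N p)) →
  (∀ p ∈ domE 2 e₀ M, ∀ a : ℝ, 0 ≤ a → ∀ g : X,
    A (p.1, EM.τE 2 a p.2) (τX a g) = τX a (A p g)) →
  ∃ N₃ : ℝ × E 3 → E 3, ContDiffOn ℝ ∞ N₃ (domE 3 e₀ M) ∧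
    ∀ p ∈ domE 3 e₀ M, z0 (N₃ p) = N (p.1, EM.drop 2 p.2)

/-- UNI-LEAD -/
def P_lead : Prop := ∀ (O : Ops) (M e₀ : ℝ) (η : ℝ × Y → Y), EtaSol O M e₀ η →
  ∀ f : X, ‖f‖ < M →
    That O η (0, O.lift f) = O.P (f * O.b f) ∧
    ∀ g : X, O.W (O.lift g * kH O η (0, O.lift f)) = O.P (f * O.b g + g * O.b f)

/-- the properties of the leading order solution -/
structure F0Data (χ C b₀ f₀ : ℝ → ℝ) : Prop where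
  χ_smooth : ContDiff ℝ ∞ χ
  χ_zero : ∀ x, x ≤ 1 / 4 → χ x = 0
  χ_one : ∀ x, 1 / 2 ≤ x → χ x = 1
  C_eq : ∀ x, C x = Real.pi / 24 * ((1 - χ x) * x ^ 2 + χ x)
  b_smooth : ContDiff ℝ ∞ b₀
  f_smooth : ContDiff ℝ ∞ f₀
  b_near : ∀ x, x ≤ 1 / 4 → b₀ x = x / 3
  f_near : ∀ x, x ≤ 1 / 4 → f₀ x = x
  b_pos : ∀ x, 0 < x → 0 < b₀ x
  f_eq : ∀ x, f₀ x = 2 * b₀ x + x * deriv b₀ x
  main : ∀ y, 0 ≤ y → y ≤ 1 →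
    4 * (∫ t in (0 : ℝ)..(Real.pi / 2), Real.sin t ^ 2 * Real.cos t ^ 2 *
      (f₀ (y * Real.cos t) * b₀ (y * Real.cos t))) = C y

/-- UNI-F0 -/
def P_F0 : Prop := ∃ χ C b₀ f₀ : ℝ → ℝ, F0Data χ C b₀ f₀

/-- UNI-LIN: the linearised equation is uniquely solvable in `Ep` -/
def P_lin : Prop := ∀ (O : Ops) (χ C b₀ f₀ : ℝ → ℝ), F0Data χ C b₀ f₀ →
  O.b (mkX f₀) = mkX b₀ ∧
  ∀ r : Ep, ∃! g : Ep,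
    z0 (g : E 3) * mkX b₀ + mkX f₀ * O.b (z0 (g : E 3)) = z0 (r : E 3)

/-- UNI-JET: smooth functions of two variables give smooth curves in `E 3`;
elements of `E k` are determined by their zeroth component -/
def P_jet : Prop := (∀ (k : ℕ) (u v : E k), z0 u = z0 v → u = v) ∧
  ∀ u : ℝ → ℝ → ℝ, ContDiff ℝ ∞ (fun p : ℝ × ℝ => u p.1 p.2) →
    ∃ J : ℝ × ℝ → E 3, ContDiff ℝ ∞ J ∧ ∀ ε α x : ℝ, 0 ≤ x → x ≤ 1 →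
      evX (z0 (J (ε, α))) x = u ε (Real.exp (-α ^ 2) * x)

/-- UNI-WFN: the right-hand side -/
def P_wfn : Prop := ∀ (O : Ops) (M e₀ : ℝ) (η : ℝ × Y → Y), EtaSol O M e₀ η → 1 < M →
  ∀ χ C b₀ f₀ : ℝ → ℝ, F0Data χ C b₀ f₀ →
  ∃ (v : ℝ → ℝ → ℝ) (e₁ : ℝ), 0 < e₁ ∧ e₁ ≤ e₀ ∧
    ContDiff ℝ ∞ (fun p : ℝ × ℝ => v p.1 p.2) ∧
    (∀ x, 0 ≤ x → x ≤ 1 → v 0 x = f₀ x * b₀ x) ∧
    ∀ ε : ℝ, |ε| < e₁ →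
      (∀ y, 1 / 2 ≤ y → y ≤ 1 → evX (O.P (mkX (v ε))) y = Real.pi / 24) ∧
      (∀ n : X, O.P n = That O η (ε, O.lift (mkX (fun x => x))) →
        ∀ x, 0 ≤ x → x ≤ 1 / 4 → evX n x = v ε x)

/-- UNI-IFT: abstract implicit function theorem with values in a closed subspace, for
`V = E 3`, `V⁺ = Ep`. -/
def P_ift : Prop := ∀ (_ : EMaps) (H : ℝ × ℝ × Ep → E 3) (L : Ep →L[ℝ] E 3) (Ω : Set (ℝ × ℝ × Ep)),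
  IsOpen Ω → (0, 0, 0) ∈ Ω → ContDiffOn ℝ ∞ H Ω → (∀ p ∈ Ω, H p ∈ Ep) → H (0, 0, 0) = 0 →
  (∀ g : Ep, HasDerivAt (fun s : ℝ => H (0, 0, s • g)) (L g) 0) →
  (∀ r : Ep, ∃! g : Ep, L g = (r : E 3)) →
  ∃ (δ : ℝ) (G : ℝ × ℝ → Ep), 0 < δ ∧ ContDiffOn ℝ ∞ G {q | |q.1| < δ ∧ |q.2| < δ} ∧
    G (0, 0) = 0 ∧
    ∀ q : ℝ × ℝ, |q.1| < δ → |q.2| < δ →
      (q.1, q.2, G q) ∈ Ω ∧ H (q.1, q.2, G q) = 0 ∧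
      ∀ g : Ep, ‖g‖ < δ → H (q.1, q.2, g) = 0 → g = G q

/-- UNI-TIME: `∫ dt/ϱ` -/
def P_time : Prop := ∀ (O : Ops) (M e₀ : ℝ) (η : ℝ × Y → Y), EtaSol O M e₀ η →
  ∀ p ∈ dom e₀ M, ∀ y : ℝ, 0 ≤ y → y ≤ 1 →
    (∀ t : ℝ, 0 ≤ t → t ≤ Real.pi / 2 →
      3 / 4 ≤ evY (rho p.1 (η p)) y t ∧
      3 / 4 ≤ evY (rho (-p.1) (η (-p.1, p.2))) y t ∧
      evY (rho p.1 (η p)) y t ^ 2 * Real.sin t ^ 2 = Real.sin t ^ 2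
        - 2 * ∫ s in (0 : ℝ)..t, Real.sin s ^ 2 * (p.1 * evY p.2 y s)
            * evY (rho p.1 (η p)) y s ∧
      evY (rho (-p.1) (η (-p.1, p.2))) y t ^ 2 * Real.sin t ^ 2 = Real.sin t ^ 2
        + 2 * ∫ s in (0 : ℝ)..t, Real.sin s ^ 2 * (p.1 * evY p.2 y s)
            * evY (rho (-p.1) (η (-p.1, p.2))) y s) ∧
    (∫ t in (0 : ℝ)..(Real.pi / 2), (1 / evY (rho p.1 (η p)) y t
        + 1 / evY (rho (-p.1) (η (-p.1, p.2))) y t))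
      = Real.pi + p.1 ^ 2 * evX (That O η p) y

/-- UNI-N3 (assembly A): from `P_smo`, `P_der`, `P_khat`, `P_abel`, `P_inj`, `P_lift` -/
def P_N3 : Prop := ∀ (O : Ops) (EM : EMaps) (M e₀ : ℝ) (η : ℝ × Y → Y), EtaSol O M e₀ η →
  ∃ N₃ : ℝ × E 3 → E 3, ContDiffOn ℝ ∞ N₃ (domE 3 e₀ M) ∧
    (∀ p ∈ domE 3 e₀ M, ∀ a : ℝ, 0 ≤ a → N₃ (p.1, EM.τE 3 a p.2) = EM.τE 3 a (N₃ p)) ∧
    ∀ p ∈ domE 3 e₀ M, O.P (z0 (N₃ p)) = That O η (p.1, O.lift (z0 p.2)) ∧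
      ∀ g : E 3, ∃ D : X, HasDerivAt (fun s : ℝ => z0 (N₃ (p.1, p.2 + s • g))) D 0 ∧
        O.P D = O.W (O.lift (z0 g) * kH O η (p.1, O.lift (z0 p.2)))

/-- UNI-SOL (assembly B): from `P_N3`, `P_eta`, `P_smo`, `P_inj`, `P_lead`, `P_F0`, `P_lin`,
`P_jet`, `P_wfn`, `P_ift` -/
def P_sol : Prop := ∀ (O : Ops) (_ : EMaps), ∃ (M e₀ : ℝ) (η : ℝ × Y → Y), EtaSol O M e₀ η ∧
  ∃ e₂ : ℝ, 0 < e₂ ∧ e₂ ≤ e₀ ∧ ∀ ε : ℝ, 0 < ε → ε < e₂ → ∃ f : X, ‖f‖ < M ∧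
    (∀ x, 0 ≤ x → x ≤ 1 / 4 → evX f x = x) ∧
    ContDiffOn ℝ ∞ (evX f) (Ioo 0 1) ∧
    ∀ y, 1 / 2 ≤ y → y ≤ 1 → evX (That O η (ε, O.lift f)) y = Real.pi / 24

/-- the pair of quarter orbit profiles with the total time `τ` (half period) -/
def Quarter (f : ℝ → ℝ) (y τ : ℝ) : Prop :=
  ∃ r₁ r₂ : ℝ → ℝ, ContinuousOn r₁ (Icc 0 (Real.pi / 2)) ∧
    ContinuousOn r₂ (Icc 0 (Real.pi / 2)) ∧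
    (∀ t ∈ Icc (0 : ℝ) (Real.pi / 2), 0 < r₁ t ∧ 0 < r₂ t ∧
      r₁ t ^ 2 * Real.sin t ^ 2 = Real.sin t ^ 2
        - 2 * ∫ s in (0 : ℝ)..t, Real.sin s ^ 2 * f (y * Real.cos s) * r₁ s ∧
      r₂ t ^ 2 * Real.sin t ^ 2 = Real.sin t ^ 2
        + 2 * ∫ s in (0 : ℝ)..t, Real.sin s ^ 2 * f (y * Real.cos s) * r₂ s) ∧
    (∫ t in (0 : ℝ)..(Real.pi / 2), (1 / r₁ t + 1 / r₂ t)) = τ

/-- the isochronous annulus (final result of the analytic part) -/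
def P_iso : Prop := ∃ (f : ℝ → ℝ) (τ : ℝ), ContDiff ℝ ∞ f ∧ (∀ p, f (-p) = -f p) ∧
  (∀ p, |f p| ≤ 1 / 100) ∧ deriv f 0 ≠ 0 ∧ |τ - Real.pi| ≤ 1 / 200 ∧
  ∀ y ∈ Ioo (1 / 2 : ℝ) (3 / 4), Quarter f y τ

/-! ### Dynamical and geometric part -/

/-- UNI-ORB: solutions of `p'' + p = f(p) p'` starting at `(y, 0)` are `2τ`-periodic -/
def P_orb : Prop := ∀ (f : ℝ → ℝ), ContDiff ℝ ∞ f → (∀ p, f (-p) = -f p) →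
  ∀ (y τ : ℝ), 0 < y → Quarter f y τ →
  ∀ p q : ℝ → ℝ, (∀ t, HasDerivAt p (q t) t) →
    (∀ t, HasDerivAt q (f (p t) * q t - p t) t) → p 0 = y → q 0 = 0 →
    ∀ t, p (t + 2 * τ) = p t ∧ q (t + 2 * τ) = q t

/-- UNI-FLOW: the smooth global flow of `v' = p, p' = Φ(p) - v` -/
def P_flow : Prop := ∀ (Φ : ℝ → ℝ), ContDiff ℝ ∞ Φ → (∀ p, |deriv Φ p| ≤ 1 / 100) →
  ∃ S T : (Fin 2 → ℝ) × ℝ → ℝ, ContDiff ℝ ∞ S ∧ ContDiff ℝ ∞ T ∧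
    ∀ (x : Fin 2 → ℝ) (θ : ℝ), HasDerivAt (fun s => S (x, s)) (T (x, θ)) θ ∧
      HasDerivAt (fun s => T (x, s)) (Φ (T (x, θ)) - S (x, θ)) θ ∧
      S (x, 0) = x 0 ∧ T (x, 0) = x 1

/-- a periodic family of solutions -/
structure PerData (f Φ : ℝ → ℝ) (L : ℝ) (U : Set (Fin 2 → ℝ))
    (S T : (Fin 2 → ℝ) × ℝ → ℝ) : Prop where
  f_smooth : ContDiff ℝ ∞ f
  f_small : ∀ p, |f p| ≤ 1 / 100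
  f_der : deriv f 0 ≠ 0
  Φ_der : ∀ p, HasDerivAt Φ (f p) p
  L_near : |L - 2 * Real.pi| ≤ 1 / 100
  U_open : IsOpen U
  S_smooth : ContDiff ℝ ∞ S
  T_smooth : ContDiff ℝ ∞ T
  S_der : ∀ x θ, HasDerivAt (fun s => S (x, s)) (T (x, θ)) θ
  T_der : ∀ x θ, HasDerivAt (fun s => T (x, s)) (Φ (T (x, θ)) - S (x, θ)) θ
  S_zero : ∀ x, S (x, 0) = x 0
  T_zero : ∀ x, T (x, 0) = x 1
  per : ∀ x ∈ U, ∀ θ, S (x, θ + L) = S (x, θ)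
  pt : ∃ x ∈ U, ∃ θ, T (x, θ) = 0

/-- UNI-PER: from `P_iso`, `P_orb`, `P_flow` -/
def P_per : Prop := ∃ (f Φ : ℝ → ℝ) (L : ℝ) (U : Set (Fin 2 → ℝ))
  (S T : (Fin 2 → ℝ) × ℝ → ℝ), PerData f Φ L U S T

/-- `a(x,θ)·y`: the `x`-derivative of `S` at `(x,θ)` in the direction `y` -/
def dx (S : (Fin 2 → ℝ) × ℝ → ℝ) (x : Fin 2 → ℝ) (θ : ℝ) (y : Fin 2 → ℝ) : ℝ :=
  fderiv ℝ S (x, θ) (y, 0)

/-- UNI-THETA: the Finsler function `F(x,y) = max_θ a(x,θ)·y` and the maximiser -/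
def P_theta : Prop := ∀ (f Φ : ℝ → ℝ) (L : ℝ) (U : Set (Fin 2 → ℝ))
  (S T : (Fin 2 → ℝ) × ℝ → ℝ), PerData f Φ L U S T →
  ∃ F : (Fin 2 → ℝ) → (Fin 2 → ℝ) → ℝ,
    (∀ x ∈ U, ∀ y : Fin 2 → ℝ, ∀ t : ℝ, 0 < t → F x (t • y) = t * F x y) ∧
    (∀ x ∈ U, ∀ θ : ℝ, ∀ y : Fin 2 → ℝ, dx T x θ y = 0 → 0 < dx S x θ y →
      F x y = dx S x θ y) ∧
    ∀ x ∈ U, ∀ y : Fin 2 → ℝ, y ≠ 0 → ∃ (W : Set ((Fin 2 → ℝ) × (Fin 2 → ℝ)))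
      (ϑ : (Fin 2 → ℝ) × (Fin 2 → ℝ) → ℝ), IsOpen W ∧ (x, y) ∈ W ∧ ContDiffOn ℝ ∞ ϑ W ∧
      ∀ q ∈ W, q.1 ∈ U ∧ F q.1 q.2 = dx S q.1 (ϑ q) q.2 ∧ dx T q.1 (ϑ q) q.2 = 0 ∧
        0 < F q.1 q.2

end

end Pool.Agent.W668.Uni
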